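import Pool.Agent.H899.ER.Res

/-!
# Relative classes given by invariant hermitian forms
-/

set_option autoImplicit false

namespace Pool.Agent.H899.ER

open Filter Topology
open Pool.Agent.W594.SYZ2 (IsHermitian)
open Pool.Agent.R895 (Lat BlBundle act kum N1 N1s IsEis IsClass std frm kap Nf Dat IsExt exH exH_herm
  exH_int co mem_co frm_add frm_smul frm_sub frm_zero form_frm N1_ext' kap_ne re_natMul)
open Pool.Agent.Y167 (AffGrp cone cone_ind cone_add cone_smul mem_cone_self zero_mem_cone cone_mono)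
open Pool.Agent.T6.H34.EK (QBundle PresLat grp NS NSs res IsCls c0 c0_pos c0_real avg avg_dat avg_inv
  avg_re Inv)

variable {n r : ℕ} {G : Subgroup ((Fin n → ℂ) ≃ₗ[ℂ] (Fin n → ℂ))} {hG : PresLat G}
  {j : (Fin r → ℂ) →ₗ[ℂ] (Fin n → ℂ)} {ρ : Fin r → Fin n}
  {K : Subgroup ((Fin r → ℂ) ≃ₗ[ℂ] (Fin r → ℂ))} {h : (Fin r → ℂ) → (Fin r → ℂ) → ℂ}

section rs

theorem isClass_of {L : QBundle (grp G hG)} {x : ((Fin n → ℂ) → (Fin n → ℂ) → ℂ) × ℝ}
    (hL : IsCls L x) : IsClass j L.toBlBundle (fun u w => x.1 (j u) (j w), x.2) :=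
  ⟨x.1, hL.1, fun _ _ => rfl, hL.2⟩

theorem rs_mem (x : NS (grp G hG)) :
    ((fun u w => x.1.1 (j u) (j w), x.1.2) : ((Fin r → ℂ) → (Fin r → ℂ) → ℂ) × ℝ) ∈
      NRs (grp G hG) j := by
  obtain ⟨x, hx⟩ := x
  change ((fun u w => x.1 (j u) (j w), x.2) : ((Fin r → ℂ) → (Fin r → ℂ) → ℂ) × ℝ) ∈ _
  unfold NSs at hx
  induction hx using Submodule.span_induction with
  | mem x hx =>
    obtain ⟨L, hL⟩ := hx
    exact Submodule.subset_span ⟨_, isClass_of hL⟩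
  | zero => exact Submodule.zero_mem _
  | add x y _ _ h1 h2 => exact Submodule.add_mem _ h1 h2
  | smul t x _ h1 => exact Submodule.smul_mem _ t h1

/-- The restriction of an absolute class. -/
def rs (x : NS (grp G hG)) : NR (grp G hG) j := ⟨_, rs_mem x⟩

theorem rs_smul (t : ℝ) (x : NS (grp G hG)) : rs (j := j) (t • x) = t • rs x := rfl

theorem frm_rs (x : NS (grp G hG)) (u w : Fin r → ℂ) :
    frm (up (rs (j := j) x)) u w = frm (Pool.Agent.T6.H34.EK.up x) (j u) (j w) := rfl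

theorem coef_rs (x : NS (grp G hG)) : coef (rs (j := j) x) = Pool.Agent.T6.H34.EK.coef x := rfl

theorem rs_integral {x : NS (grp G hG)} (hx : x ∈ Pool.Agent.T6.H34.EK.integral (grp G hG)) :
    rs (j := j) x ∈ integral (grp G hG) j := by
  obtain ⟨L, hL⟩ := hx
  exact ⟨L, isClass_of hL⟩

theorem rs_semiample {x : NS (grp G hG)} (hx : x ∈ Pool.Agent.T6.H34.EK.semiample (grp G hG)) :
    rs (j := j) x ∈ semiample (grp G hG) j := by
  obtain ⟨L, hL, h⟩ := hx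
  exact ⟨L, isClass_of hL, h⟩

theorem rs_effective {x : NS (grp G hG)} (hx : x ∈ Pool.Agent.T6.H34.EK.effective (grp G hG)) :
    rs (j := j) x ∈ effective (grp G hG) j := by
  obtain ⟨L, s, hL, hs, h0⟩ := hx
  exact ⟨L, s, isClass_of hL, hs, h0⟩

end rs

section exH

theorem re_exH (c : ℕ) (v : Fin n → ℂ) : (exH ρ c h v v).re =
    (h (v ∘ ρ) (v ∘ ρ)).re + c * ∑ i ∈ co ρ, Complex.normSq (v i) := by
  unfold exH
  rw [Complex.add_re, re_natMul, Complex.re_sum]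
  congr 2
  refine Finset.sum_congr rfl fun i _ => ?_
  rw [Complex.mul_conj, Complex.ofReal_re]

theorem co_of_ne {v : Fin n → ℂ} (hv : v ≠ 0) (h0 : v ∘ ρ = 0) : ∃ i ∈ co ρ, v i ≠ 0 := by
  obtain ⟨i, hi⟩ := Function.ne_iff.1 hv
  refine ⟨i, mem_co.2 ?_, hi⟩
  rintro a rfl
  exact hi (congrFun h0 a)

theorem exH_pos (D : Dat h) {c : ℕ} (hc : 0 < c) (hp : ∀ v, v ≠ 0 → 0 < (h v v).re)
    {v : Fin n → ℂ} (hv : v ≠ 0) : 0 < (exH ρ c h v v).re := by
  rw [re_exH]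
  have h1 : 0 ≤ ∑ i ∈ co ρ, Complex.normSq (v i) :=
    Finset.sum_nonneg fun i _ => Complex.normSq_nonneg _
  have hcr : (0 : ℝ) < c := by exact_mod_cast hc
  by_cases h0 : v ∘ ρ = 0
  · obtain ⟨i, hi, hi0⟩ := co_of_ne hv h0
    have h2 : Complex.normSq (v i) ≤ ∑ i ∈ co ρ, Complex.normSq (v i) :=
      Finset.single_le_sum (f := fun i => Complex.normSq (v i))
        (fun i _ => Complex.normSq_nonneg _) hi
    have h3 := Complex.normSq_pos.2 hi0
    have h4 : h (v ∘ ρ) (v ∘ ρ) = 0 := by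
      rw [h0]
      exact Pool.Agent.W594.SYZ2.TQ.h_zero_right D.herm _
    rw [h4, Complex.zero_re, zero_add]
    exact mul_pos hcr (h3.trans_le h2)
  · have := hp _ h0
    positivity

theorem one_le_normSq {z : ℂ} (hz : IsEis z) (h0 : z ≠ 0) : 1 ≤ Complex.normSq z := by
  have h1 := Pool.Agent.R895.one_le_std (v := fun _ : Fin 1 => z) (fun _ => hz) (by
    intro h
    exact h0 (congrFun h 0))
  have h2 : (std (fun _ : Fin 1 => z) (fun _ : Fin 1 => z)).re = Complex.normSq z := by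
    unfold std
    rw [Complex.re_sum]
    simp [Complex.mul_conj, Complex.normSq_apply]
  rwa [h2] at h1

/-- The values of the extended form at lattice vectors. -/
theorem exH_lat (D : Dat h) {b c : ℕ} (hbc : b < c) {t : ℝ}
    (hb : ∀ v, Lat v → v ≠ 0 → t ≤ (h v v).re) (htb : t ≤ (b : ℝ) + 1) {v : Fin n → ℂ}
    (hv : Lat v) (hv0 : v ≠ 0) : t ≤ (exH ρ c h v v).re := by
  rw [re_exH]
  have h1 : 0 ≤ ∑ i ∈ co ρ, Complex.normSq (v i) :=
    Finset.sum_nonneg fun i _ => Complex.normSq_nonneg _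
  have hcr : (b : ℝ) + 1 ≤ c := by exact_mod_cast hbc
  by_cases h0 : v ∘ ρ = 0
  · obtain ⟨i, hi, hi0⟩ := co_of_ne hv0 h0
    have h2 : Complex.normSq (v i) ≤ ∑ i ∈ co ρ, Complex.normSq (v i) :=
      Finset.single_le_sum (f := fun i => Complex.normSq (v i))
        (fun i _ => Complex.normSq_nonneg _) hi
    have h3 := one_le_normSq (hv i) hi0
    have h4 : h (v ∘ ρ) (v ∘ ρ) = 0 := by
      rw [h0]
      exact Pool.Agent.W594.SYZ2.TQ.h_zero_right D.herm _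
    rw [h4, Complex.zero_re, zero_add]
    have h5 : (0 : ℝ) ≤ b := Nat.cast_nonneg b
    nlinarith
  · have h6 : t ≤ (h (v ∘ ρ) (v ∘ ρ)).re := hb _ (fun a => hv (ρ a)) h0
    have h5 : (0 : ℝ) ≤ c := Nat.cast_nonneg c
    have h7 := mul_nonneg h5 h1
    linarith

theorem exH_nonneg {c : ℕ} (hp : ∀ v, 0 ≤ (h v v).re) (v : Fin n → ℂ) :
    0 ≤ (exH ρ c h v v).re := by
  rw [re_exH]
  have h1 : 0 ≤ ∑ i ∈ co ρ, Complex.normSq (v i) :=
    Finset.sum_nonneg fun i _ => Complex.normSq_nonneg _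
  have := hp (v ∘ ρ)
  positivity

end exH

section avg

variable [Fintype G]

theorem avg_exH (hR : Restr G j K) (hj : IsExt ρ j) (hρ : Function.Injective ρ) (hi : Inv K h)
    (c : ℕ) (u w : Fin r → ℂ) : avg G (exH ρ c h) (j u) (j w) = Fintype.card G * h u w := by
  unfold avg
  have h1 : ∀ g : G, exH ρ c h ((g : (Fin n → ℂ) ≃ₗ[ℂ] (Fin n → ℂ)) (j u))
      ((g : (Fin n → ℂ) ≃ₗ[ℂ] (Fin n → ℂ)) (j w)) = h u w := by
    intro g
    obtain ⟨a, ha, h2⟩ := hR.down g g.2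
    rw [h2, h2, hj.exH hρ, hi a ha]
  rw [Finset.sum_congr rfl fun g _ => h1 g, Finset.sum_const, Finset.card_univ, nsmul_eq_mul]

theorem card_pos' : (0 : ℝ) < Fintype.card G := by exact_mod_cast Fintype.card_pos

/-- The constant. -/
noncomputable def cr (G : Subgroup ((Fin n → ℂ) ≃ₗ[ℂ] (Fin n → ℂ))) [Fintype G] : ℕ :=
  c0 G * Fintype.card G

theorem cr_pos : 0 < cr G := Nat.mul_pos c0_pos Fintype.card_pos

theorem cr_real : (0 : ℝ) < cr G := by exact_mod_cast cr_pos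

theorem one_le_cr : (1 : ℝ) ≤ cr G := by exact_mod_cast cr_pos (G := G)

theorem cr_ne : (cr G : ℂ) ≠ 0 := by exact_mod_cast (cr_pos (G := G)).ne'

variable [Nonempty (Fin n)]

/-- The class of an invariant integral form. -/
theorem exists_cls (hG : PresLat G) (hR : Restr G j K) (hj : IsExt ρ j)
    (hρ : Function.Injective ρ) (D : Dat h) (hi : Inv K h) (b : ℕ) :
    ∃ y : NR (grp G hG) j, y ∈ integral (grp G hG) j ∧
      (∀ u w, frm (up y) u w = cr G * h u w) ∧ coef y = cr G * b := by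
  have D' : Dat (exH ρ 0 h) := ⟨exH_herm D.herm 0, exH_int D.int 0⟩
  obtain ⟨y, h1, h2, h3⟩ := Pool.Agent.T6.H34.EK.exists_cls hG (avg_dat hG D') (avg_inv _)
    (Fintype.card G * b)
  refine ⟨rs y, rs_integral h1, fun u w => ?_, ?_⟩
  · rw [frm_rs, h2, avg_exH hR hj hρ hi]
    unfold cr
    push_cast
    ring
  · rw [coef_rs, h3]
    unfold cr
    push_cast
    ring

theorem semiample_cls (hn : Pool.Agent.T6.H34.E6.Ok n) (hR : Restr G j K) (hj : IsExt ρ j)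
    (hρ : Function.Injective ρ) (D : Dat h) (hi : Inv K h) (b : ℕ)
    (hp : ∀ v, v ≠ 0 → 0 < (h v v).re)
    (hb : ∀ v, Lat v → v ≠ 0 → (b : ℝ) < (h v v).re) {y : NR (grp G hG) j}
    (h1 : ∀ u w, frm (up y) u w = cr G * h u w) (h2 : coef y = cr G * b) :
    y ∈ semiample (grp G hG) j := by
  have D' : Dat (exH ρ (b + 1) h) := ⟨exH_herm D.herm _, exH_int D.int _⟩
  obtain ⟨y', h3, h4, h5⟩ := Pool.Agent.T6.H34.EK.exists_cls hG (avg_dat hG D') (avg_inv _)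
    (Fintype.card G * b)
  have hy : y = rs y' := by
    refine NR_ext (fun u w => ?_) ?_
    · rw [h1, frm_rs, h4, avg_exH hR hj hρ hi]
      unfold cr
      push_cast
      ring
    · rw [h2, coef_rs, h5]
      unfold cr
      push_cast
      ring
  have hb' : ∀ v, Lat v → v ≠ 0 → (b : ℝ) + 1 ≤ (h v v).re := by
    intro v hv hv0
    obtain ⟨k, hk⟩ := D.val hv
    have h6 := hb v hv hv0
    rw [hk] at h6 ⊢
    have h7 : (b : ℤ) < k := by exact_mod_cast h6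
    have h8 : (b : ℤ) + 1 ≤ k := h7
    exact_mod_cast h8
  rw [hy]
  refine rs_semiample (Pool.Agent.T6.H34.E6.semiample_cls hn (avg_dat hG D') (avg_inv _)
    (Fintype.card G * b) (fun v hv => ?_) (fun v hv hv0 => ?_) h4 h5)
  · rw [avg_re]
    refine Finset.sum_pos (fun g _ => exH_pos D (Nat.succ_pos b) hp ?_) Finset.univ_nonempty
    exact fun h0 => hv ((g : (Fin n → ℂ) ≃ₗ[ℂ] (Fin n → ℂ)).map_eq_zero_iff.1 h0)
  · rw [avg_re]
    have h6 : ∀ g : G, (b : ℝ) + 1 ≤ (exH ρ (b + 1) h ((g : (Fin n → ℂ) ≃ₗ[ℂ] (Fin n → ℂ)) v)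
        ((g : (Fin n → ℂ) ≃ₗ[ℂ] (Fin n → ℂ)) v)).re := fun g =>
      exH_lat D (Nat.lt_succ_self b) hb' le_rfl (hG g g.2 v hv)
        fun h0 => hv0 ((g : (Fin n → ℂ) ≃ₗ[ℂ] (Fin n → ℂ)).map_eq_zero_iff.1 h0)
    have h7 := Finset.card_nsmul_le_sum Finset.univ _ _ fun g _ => h6 g
    rw [Finset.card_univ, nsmul_eq_mul] at h7
    have h8 := card_pos' (G := G)
    push_cast
    nlinarith

theorem effective_cls (hn : Pool.Agent.T6.H34.E6.Ok n) (hR : Restr G j K) (hj : IsExt ρ j)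
    (hρ : Function.Injective ρ) (D : Dat h) (hi : Inv K h) (b : ℕ)
    (hb : (∀ v, v ≠ 0 → 0 < (h v v).re) ∧ (∀ v, Lat v → v ≠ 0 → (b : ℝ) ≤ (h v v).re) ∨
      b = 0 ∧ ∀ v, 0 ≤ (h v v).re) {y : NR (grp G hG) j}
    (h1 : ∀ u w, frm (up y) u w = cr G * h u w) (h2 : coef y = cr G * b) :
    ∃ N : ℕ, 1 ≤ N ∧ (N : ℝ) • y ∈ effective (grp G hG) j := by
  have D' : Dat (exH ρ (b + 1) h) := ⟨exH_herm D.herm _, exH_int D.int _⟩
  obtain ⟨y', h3, h4, h5⟩ := Pool.Agent.T6.H34.EK.exists_cls hG (avg_dat hG D') (avg_inv _)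
    (Fintype.card G * b)
  have hy : y = rs y' := by
    refine NR_ext (fun u w => ?_) ?_
    · rw [h1, frm_rs, h4, avg_exH hR hj hρ hi]
      unfold cr
      push_cast
      ring
    · rw [h2, coef_rs, h5]
      unfold cr
      push_cast
      ring
  have key : (∀ v, v ≠ 0 → 0 < (avg G (exH ρ (b + 1) h) v v).re) ∧
      (∀ v, Lat v → v ≠ 0 → ((Fintype.card G * b : ℕ) : ℝ) ≤ (avg G (exH ρ (b + 1) h) v v).re) ∨
      Fintype.card G * b = 0 ∧ ∀ v, 0 ≤ (avg G (exH ρ (b + 1) h) v v).re := by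
    rcases hb with ⟨hp, hb⟩ | ⟨rfl, hb⟩
    · refine Or.inl ⟨fun v hv => ?_, fun v hv hv0 => ?_⟩
      · rw [avg_re]
        refine Finset.sum_pos (fun g _ => exH_pos D (Nat.succ_pos b) hp ?_) Finset.univ_nonempty
        exact fun h0 => hv ((g : (Fin n → ℂ) ≃ₗ[ℂ] (Fin n → ℂ)).map_eq_zero_iff.1 h0)
      · rw [avg_re]
        have h6 : ∀ g : G, (b : ℝ) ≤ (exH ρ (b + 1) h ((g : (Fin n → ℂ) ≃ₗ[ℂ] (Fin n → ℂ)) v)
            ((g : (Fin n → ℂ) ≃ₗ[ℂ] (Fin n → ℂ)) v)).re := fun g =>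
          exH_lat D (Nat.lt_succ_self b) hb (by linarith) (hG g g.2 v hv)
            fun h0 => hv0 ((g : (Fin n → ℂ) ≃ₗ[ℂ] (Fin n → ℂ)).map_eq_zero_iff.1 h0)
        have h7 := Finset.card_nsmul_le_sum Finset.univ _ _ fun g _ => h6 g
        rw [Finset.card_univ, nsmul_eq_mul] at h7
        push_cast
        exact h7
    · refine Or.inr ⟨Nat.mul_zero _, fun v => ?_⟩
      rw [avg_re]
      exact Finset.sum_nonneg fun g _ => exH_nonneg hb _
  obtain ⟨N, hN, heff⟩ := Pool.Agent.T6.H34.E6.effective_cls hn (avg_dat hG D') (avg_inv _)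
    (Fintype.card G * b) key h4 h5
  refine ⟨N, hN, ?_⟩
  rw [hy, ← rs_smul]
  exact rs_effective heff

end avg

end Pool.Agent.H899.ER
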