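import Pool.Agent.H899.ER.Lift
import Pool.Graph.R_pool_sql_team_seeded_b0a926ef.R324.MovD

/-!
# The covering and the fundamental domain
-/

set_option autoImplicit false
set_option maxHeartbeats 400000

namespace Pool.Agent.H899.ER

open Filter Topology
open Pool.Agent.W594.SYZ2 (IsHermitian)
open Pool.Agent.R895 (Lat BlBundle act kum N1 N1s IsEis IsClass std frm kap Nf Dat IsExt exH exH_herm
  exH_int co mem_co frm_add frm_smul frm_sub frm_zero form_frm N1_ext' kap_ne kap_pos re_natMul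
  frm_herm std_dat std_herm std_int std_pos std_nonneg one_le_std le_std xi exists_ker lat
  dat_of_isInt re_kap_div om lat_single cut_int exists_vectors Normalizes)
open Pool.Agent.R324.MovBl (cone_scale)
open Pool.Agent.Y167 (AffGrp cone CData Pol Cp cone_ind cone_add cone_smul cone_sum cone_le
  mem_cone_self mem_cone_of_sum zero_mem_cone cone_mono)
open Pool.Agent.Y167.CC (LinGrp Preserves IsFundDomain)
open Pool.Agent.T6.H34.EK (QBundle PresLat grp NS NSs res IsCls c0 c0_pos c0_real avg avg_dat avg_inv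
  avg_re avg_of_inv Inv std_le_avg re_twice)

variable {n r : ℕ} {G : Subgroup ((Fin n → ℂ) ≃ₗ[ℂ] (Fin n → ℂ))} {hG : PresLat G}
  {j : (Fin r → ℂ) →ₗ[ℂ] (Fin n → ℂ)} {ρ : Fin r → Fin n}
  {K : Subgroup ((Fin r → ℂ) ≃ₗ[ℂ] (Fin r → ℂ))}

/-- The functional given by the lattice vector `w`. -/
noncomputable def phi (hG : PresLat G) (j : (Fin r → ℂ) →ₗ[ℂ] (Fin n → ℂ)) (w : Fin r → ℂ) :
    NR (grp G hG) j →ₗ[ℝ] ℝ := (Pool.Agent.R895.phi 1 j w) ∘ₗ upL

theorem phi_apply (w : Fin r → ℂ) (x : NR (grp G hG) j) :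
    phi hG j w x = (frm (up x) w w).re - coef x := rfl

section gens

variable [Fintype G] {F : Finset ((Fin r → ℂ) → (Fin r → ℂ) → ℂ)}
  {y : ((Fin r → ℂ) → (Fin r → ℂ) → ℂ) → NR (grp G hG) j} {e : NR (grp G hG) j}

/-- The elements of the cone spanned by the forms in `F` and the class of `-Ẽ`. -/
theorem eq_sum (hy2 : ∀ z ∈ F, ∀ v w, frm (up (y z)) v w = cr G * z v w)
    (hy3 : ∀ z ∈ F, coef (y z) = 0)
    (he2 : ∀ v w, frm (up e) v w = 0) (he3 : coef e = cr G)
    (c : ((Fin r → ℂ) → (Fin r → ℂ) → ℂ) → ℝ) {x : NR (grp G hG) j}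
    (hx : ∀ v w, frm (up x) v w = ∑ z ∈ F, (c z : ℂ) * z v w) :
    x = (coef x / cr G) • e + ∑ z ∈ F, (c z / cr G) • y z := by
  classical
  have hc0 : (cr G : ℝ) ≠ 0 := (cr_real (G := G)).ne'
  have hc0' : (cr G : ℂ) ≠ 0 := cr_ne
  have hfs : ∀ (s : Finset ((Fin r → ℂ) → (Fin r → ℂ) → ℂ)) (v w : Fin r → ℂ), s ⊆ F →
      frm (up (∑ z ∈ s, (c z / cr G) • y z)) v w = ∑ z ∈ s, (c z : ℂ) * z v w := by
    intro s v w
    induction s using Finset.induction_on with
    | empty => intro _; rw [Finset.sum_empty, Finset.sum_empty, up_zero, frm_zero]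
    | insert z s hz ih =>
      intro hs
      rw [Finset.sum_insert hz, Finset.sum_insert hz, up_add, frm_add,
        ih fun a ha => hs (Finset.mem_insert_of_mem ha), up_smul, frm_smul,
        hy2 z (hs (Finset.mem_insert_self _ _))]
      push_cast
      field_simp
  have hcs : ∀ s : Finset ((Fin r → ℂ) → (Fin r → ℂ) → ℂ), s ⊆ F →
      coef (∑ z ∈ s, (c z / cr G) • y z) = 0 := by
    intro s
    induction s using Finset.induction_on with
    | empty => intro _; rw [Finset.sum_empty, coef_zero]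
    | insert z s hz ih =>
      intro hs
      rw [Finset.sum_insert hz, coef_add, ih fun a ha => hs (Finset.mem_insert_of_mem ha),
        coef_smul, hy3 z (hs (Finset.mem_insert_self _ _))]
      ring
  refine NR_ext (fun v w => ?_) ?_
  · rw [hx, up_add, frm_add, hfs F v w (Finset.Subset.refl _), up_smul, frm_smul, he2, mul_zero,
      zero_add]
  · rw [coef_add, hcs F (Finset.Subset.refl _), coef_smul, he3]
    field_simp
    ring

theorem cone_props [DecidableEq (NR (grp G hG) j)] (hF : ∀ z ∈ F, Dat z ∧ ∀ v, 0 ≤ (z v v).re)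
    (hy2 : ∀ z ∈ F, ∀ v w, frm (up (y z)) v w = cr G * z v w)
    (hy3 : ∀ z ∈ F, coef (y z) = 0)
    (he2 : ∀ v w, frm (up e) v w = 0) (he3 : coef e = cr G) {a : NR (grp G hG) j}
    (ha : a ∈ cone (insert e (F.image y))) : (∀ v, 0 ≤ (frm (up a) v v).re) ∧ 0 ≤ coef a ∧
      ∀ w t : Fin r → ℂ, (∀ z ∈ F, (z t t).re ≤ (z w w).re) →
        (frm (up a) t t).re ≤ (frm (up a) w w).re := by
  have hc0 := cr_real (G := G)
  refine cone_ind (p := fun a => (∀ v, 0 ≤ (frm (up a) v v).re) ∧ 0 ≤ coef a ∧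
    ∀ w t : Fin r → ℂ, (∀ z ∈ F, (z t t).re ≤ (z w w).re) →
      (frm (up a) t t).re ≤ (frm (up a) w w).re) ?_ ?_ ?_ ?_ ha
  · refine ⟨fun v => ?_, le_of_eq coef_zero.symm, fun w t _ => ?_⟩
    · rw [up_zero, frm_zero, Complex.zero_re]
    · rw [up_zero, frm_zero, frm_zero]
  · rintro x y ⟨h1, h2, h3⟩ ⟨k1, k2, k3⟩
    refine ⟨fun v => ?_, by rw [coef_add]; exact add_nonneg h2 k2, fun w t hwt => ?_⟩
    · rw [up_add, frm_add, Complex.add_re]
      exact add_nonneg (h1 v) (k1 v)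
    · rw [up_add, frm_add, frm_add, Complex.add_re, Complex.add_re]
      exact add_le_add (h3 w t hwt) (k3 w t hwt)
  · rintro s x hs ⟨h1, h2, h3⟩
    refine ⟨fun v => ?_, by rw [coef_smul]; exact mul_nonneg hs h2, fun w t hwt => ?_⟩
    · rw [up_smul, frm_smul, Complex.re_ofReal_mul]
      exact mul_nonneg hs (h1 v)
    · rw [up_smul, frm_smul, frm_smul, Complex.re_ofReal_mul, Complex.re_ofReal_mul]
      exact mul_le_mul_of_nonneg_left (h3 w t hwt) hs
  · intro a ha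
    rcases Finset.mem_insert.1 ha with rfl | h
    · refine ⟨fun v => ?_, by rw [he3]; exact hc0.le, fun w t _ => ?_⟩
      · rw [he2, Complex.zero_re]
      · rw [he2, he2]
    · obtain ⟨z, hz, rfl⟩ := Finset.mem_image.1 h
      refine ⟨fun v => ?_, by rw [hy3 z hz], fun w t hwt => ?_⟩
      · rw [hy2 z hz, re_cr]
        exact mul_nonneg hc0.le ((hF z hz).2 v)
      · rw [hy2 z hz, hy2 z hz, re_cr, re_cr]
        exact mul_le_mul_of_nonneg_left (hwt z hz) hc0.le

end gens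

theorem NfR_of {g : NR (grp G hG) j ≃ₗ[ℝ] NR (grp G hG) j}
    {u : (Fin r → ℂ) ≃ₗ[ℂ] (Fin r → ℂ)} (hu : ∀ v, Lat v → Lat (u v))
    (h1 : ∀ x v w, form (g x) v w = form x (u v) (u w)) (h2 : ∀ x, coef (g x) = coef x)
    {x : NR (grp G hG) j} (hx : x ∈ NfR hG j) : g x ∈ NfR hG j := by
  have h3 : ∀ v w, frm (up (g x)) v w = frm (up x) (u v) (u w) := by
    intro v w
    unfold frm
    rw [form_up, form_up, h1]
  obtain ⟨k1, k2, k3⟩ := hx
  refine ⟨fun v => ?_, by rw [coef_up, h2]; exact k2, fun v hv hv0 => ?_⟩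
  · rw [h3]
    exact k1 _
  · rw [h3, coef_up, h2]
    exact k3 _ (hu v hv) (by simpa using hv0)

/-- **The covering.** -/
theorem covering [Fintype G] [Fintype K] [Nonempty (Fin n)] (hG : PresLat G) (hK : PresLat K)
    (hR : Restr G j K) (hj : IsExt ρ j) (hρ : Function.Injective ρ) :
    ∃ F₁ : Finset (NR (grp G hG) j),
      (∀ a ∈ F₁, a ∈ LR hG j ∧ a ∈ NfR hG j) ∧
      ∀ x ∈ NfR hG j, (∃ t : ℝ, 0 < t ∧ ∀ v, t * (std v v).re ≤ (frm (up x) v v).re) →
        ∃ (f : (Fin n → ℂ) ≃ₗ[ℂ] (Fin n → ℂ)) (g : NR (grp G hG) j ≃ₗ[ℝ] NR (grp G hG) j),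
          Normalizes (grp G hG) f ∧ IsOver j f ∧ IsPullback f g ∧ g x ∈ cone F₁ := by
  classical
  obtain ⟨F, hF', hred⟩ := red_cls hG hK hR hj (N := Fintype.card G) Fintype.card_pos
  have hF : ∀ z ∈ F, Dat z ∧ ∀ v, 0 ≤ (z v v).re := fun z hz => (hF' z hz).1
  choose! y hy1 hy2 hy3' using fun z (hz : z ∈ F) =>
    exists_cls hG hR hj hρ (hF z hz).1 (hF' z hz).2 0
  have hy3 : ∀ z ∈ F, coef (y z) = 0 := fun z hz => by rw [hy3' z hz]; norm_num
  have hzero : Dat fun _ _ : Fin r → ℂ => (0 : ℂ) :=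
    ⟨⟨fun _ _ _ => by simp, fun _ _ _ => by simp, fun _ _ => by simp⟩, fun _ _ _ _ => IsEis.zero⟩
  obtain ⟨e, he1, he2', he3'⟩ := exists_cls hG hR hj hρ hzero (fun _ _ _ _ => rfl) 1
  have he2 : ∀ v w, frm (up e) v w = 0 := fun v w => by rw [he2', mul_zero]
  have he3 : coef e = cr G := by rw [he3']; norm_num
  obtain ⟨T, hT, hTle⟩ := exists_vectors F hF
  have hS₀L : ∀ a ∈ insert e (F.image y), a ∈ LR hG j := by
    intro a ha
    rcases Finset.mem_insert.1 ha with rfl | h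
    · exact AddSubgroup.subset_closure he1
    · obtain ⟨z, hz, rfl⟩ := Finset.mem_image.1 h
      exact AddSubgroup.subset_closure (hy1 z hz)
  obtain ⟨S', hS', hS'c⟩ := cut_int (insert e (F.image y)) hS₀L (T.image (phi hG j)) (by
    intro φ hφ x hx
    obtain ⟨t, ht, rfl⟩ := Finset.mem_image.1 hφ
    obtain ⟨D, n, hn⟩ := dat_of_LR hj hx
    obtain ⟨k, hk⟩ := D.val (hT t ht).1
    exact ⟨k - n, by rw [phi_apply, hk, hn]; push_cast; rfl⟩)
  refine ⟨S', fun a ha => ⟨hS' a ha, ?_⟩, ?_⟩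
  · obtain ⟨h1, h2⟩ := (hS'c a).1 (mem_cone_self ha)
    obtain ⟨k1, k2, k3⟩ := cone_props hF hy2 hy3 he2 he3 h1
    refine ⟨k1, k2, fun w hw hw0 => ?_⟩
    obtain ⟨t, ht, hle⟩ := hTle w hw hw0
    refine le_trans ?_ (k3 w t hle)
    have h3 := h2 _ (Finset.mem_image_of_mem (phi hG j) ht)
    rw [phi_apply] at h3
    rw [coef_up]
    linarith
  · intro x hx hpd
    obtain ⟨u, hu1, hu2, c, hc, hsum⟩ := hred x hpd
    have hu1' := hu1.symm
    have hu2' : Cong (Fintype.card G) u.symm := hu2.symm hu1.lat'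
    have hnm := le_norm (ρ := ρ) hG hK hR hj hρ hu1' hu2'
    obtain ⟨g, g1, g2, g3⟩ := exists_pull (hj.inj hρ) hnm (le_j hR hj hρ u.symm)
    have hgx : ∀ v w, frm (up (g x)) v w = ∑ z ∈ F, (c z : ℂ) * z v w := by
      intro v w
      have h2 : frm (up (g x)) v w = frm (up x) (u.symm v) (u.symm w) := by
        unfold frm
        rw [form_up, form_up, g2]
      rw [h2, hsum]
      refine Finset.sum_congr rfl fun z _ => ?_
      rw [u.apply_symm_apply, u.apply_symm_apply]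
    have h1 := eq_sum hy2 hy3 he2 he3 c hgx
    have hcc := cr_real (G := G)
    have hc0 : 0 ≤ coef (g x) / cr G := by
      rw [g3]
      exact div_nonneg hx.2.1 hcc.le
    refine ⟨_, g, hnm, le_over hR hj hρ u.symm, g1, (hS'c _).2 ⟨?_, fun φ hφ => ?_⟩⟩
    · rw [h1]
      refine cone_add (cone_smul (mem_cone_self (Finset.mem_insert_self _ _)) hc0)
        (mem_cone_of_sum F _ _ (fun z hz => Finset.mem_insert_of_mem
          (Finset.mem_image_of_mem _ hz)) fun z _ => div_nonneg (hc z) hcc.le)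
    · obtain ⟨t, ht, rfl⟩ := Finset.mem_image.1 hφ
      rw [phi_apply]
      have := (NfR_of hu1'.lat g2 g3 hx).2.2 t (hT t ht).1 (hT t ht).2
      rw [coef_up] at this
      linarith

/-- The group generated by the integral classes is preserved. -/
theorem closure_map {g : NR (grp G hG) j ≃ₗ[ℝ] NR (grp G hG) j}
    (hg : ∀ x ∈ integral (grp G hG) j, g x ∈ integral (grp G hG) j) {x : NR (grp G hG) j}
    (hx : x ∈ LR hG j) : g x ∈ LR hG j := by
  have h1 : LR hG j ≤ (LR hG j).comap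
      (g : NR (grp G hG) j ≃+ NR (grp G hG) j).toAddMonoidHom := by
    rw [AddSubgroup.closure_le]
    intro x hx
    exact AddSubgroup.subset_closure (hg x hx)
  exact h1 hx

/-- A multiple of an element of the group generated by the integral classes is integral, if it lies
in the nef cone. -/
theorem cr_int [Fintype G] [Nonempty (Fin n)] (hR : Restr G j K) (hj : IsExt ρ j)
    (hρ : Function.Injective ρ) {a : NR (grp G hG) j} (ha : a ∈ LR hG j) (haN : a ∈ NfR hG j) :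
    (cr G : ℝ) • a ∈ integral (grp G hG) j := by
  obtain ⟨D, k, hk⟩ := dat_of_LR hj ha
  obtain ⟨b, hb⟩ := coef_nat haN hk
  obtain ⟨y, h1, h2, h3⟩ := exists_cls hG hR hj hρ D (frm_inv hR a) b
  have h4 : (cr G : ℝ) • a = y := by
    refine NR_ext (fun u w => ?_) ?_
    · rw [h2, up_smul, frm_smul]
      push_cast
      ring
    · rw [h3, coef_smul, hb]
  rw [h4]
  exact h1

/-- **The relative cone conjecture**, general form. -/
theorem core [Fintype G] [Fintype K] (hn : Pool.Agent.T6.H34.E6.Ok n) (hr : 0 < r)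
    (hG : PresLat G) (hK : PresLat K) (hR : Restr G j K) (hj : IsExt ρ j)
    (hρ : Function.Injective ρ) (𝒢 : LinGrp (NR (grp G hG) j)) (h𝒢 : IsAutGroup 𝒢) :
    HasDomain 𝒢 := by
  classical
  have hn0 := hn.two
  have hne : Nonempty (Fin n) := ⟨⟨0, by omega⟩⟩
  obtain ⟨y₀, hy0, hy1, hy2⟩ := exists_y₀ hG hK hR hj hρ
  obtain ⟨Y, D⟩ := exists_cdata hj hρ (by omega) hr hy0 hy1 hy2
  obtain ⟨F₁, hF₁, hcov⟩ := covering hG hK hR hj hρ
  have hcc := cr_real (G := G)
  have h𝒢L : ∀ g ∈ 𝒢, ∀ x ∈ LR hG j, g x ∈ LR hG j := fun g hg x hx =>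
    closure_map (h𝒢.int g hg) hx
  have hre : ∀ v : Fin r → ℂ, (frm (up y₀) v v).re = cr G * (2 * (avg K std v v).re) := by
    intro v
    rw [hy1, re_twice]
  have hpd : ∀ (t : ℝ) (x : NR (grp G hG) j), 0 < t → x - t • y₀ ∈ NfR hG j →
      x ∈ NfR hG j ∧ ∃ t : ℝ, 0 < t ∧ ∀ v, t * (std v v).re ≤ (frm (up x) v v).re := by
    intro t x ht hx
    have h4 : x = (x - t • y₀) + t • y₀ := by abel
    refine ⟨?_, t * (cr G * 2), by positivity, fun v => ?_⟩
    · rw [h4]
      exact NfR_add hx (NfR_smul ht.le D.y_N)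
    · rw [h4, up_add, up_smul, frm_add, Complex.add_re, frm_smul, Complex.re_ofReal_mul, hre]
      have h5 := hx.1 v
      have h6 := std_le_avg (G := K) v
      have h7 : t * (cr G * 2) * (std v v).re ≤ t * (cr G * 2) * (avg K std v v).re :=
        mul_le_mul_of_nonneg_left h6 (by positivity)
      linarith
  have hadd : ∀ x ∈ NfR hG j, ∀ t : ℝ, 0 < t → x + t • y₀ ∈ nefEff (grp G hG) j := by
    intro x hx t ht
    obtain ⟨k1, k2⟩ := hpd t (x + t • y₀) ht (by rwa [add_sub_cancel_right])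
    refine Cp_le hn hK hR hj hρ (Cp_of_up hK hR hj hρ ?_)
    rw [mem_NfR] at k1
    exact Pool.Agent.R895.Cp_of_pd hj hρ k1 k2
  have h𝒢N : ∀ g ∈ 𝒢, ∀ x ∈ NfR hG j, g x ∈ NfR hG j := by
    intro g hg x hx
    refine mem_closed (y := g y₀) isClosed_NfR fun n => ?_
    have h4 := h𝒢.nef_eff g hg _ (hadd x hx (1 / ((n : ℝ) + 1)) (by positivity))
    rw [map_add, map_smul] at h4
    exact nefCone_le hj hρ h4.1
  obtain ⟨S, hS1, hS2, hS3⟩ := D.domain 𝒢 h𝒢L h𝒢N F₁ hF₁ (by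
    rintro x ⟨t, ht, hx⟩
    obtain ⟨k1, k2⟩ := hpd t x ht hx
    obtain ⟨f, g, hf1, hf2, hf3, hgx⟩ := hcov x k1 k2
    exact ⟨g, h𝒢.lin f g hf1 hf2 hf3, hgx⟩)
  have hcone' : cone (S.image fun a => (cr G : ℝ) • a) = cone S := cone_scale hcc S
  refine ⟨S.image fun a => (cr G : ℝ) • a, ?_, ?_, ?_, ?_⟩
  · intro a ha
    obtain ⟨a', ha', rfl⟩ := Finset.mem_image.1 ha
    exact cr_int hR hj hρ (hS1 a' ha').1 (hS1 a' ha').2
  · rw [hcone']
    intro x hx
    exact Cp_le hn hK hR hj hρ ⟨S, hS1, hx⟩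
  · ext x
    rw [← mem_Cp_iff hn hK hR hj hρ, hS2, hcone', Set.mem_iUnion₂]
    constructor
    · rintro ⟨g, hg, hgx⟩
      exact ⟨g⁻¹, 𝒢.inv_mem hg, g x, hgx, g.symm_apply_apply x⟩
    · rintro ⟨g, hg, y, hy, rfl⟩
      refine ⟨g⁻¹, 𝒢.inv_mem hg, ?_⟩
      have : (g⁻¹ : NR (grp G hG) j ≃ₗ[ℝ] NR (grp G hG) j) (g y) = y := g.symm_apply_apply y
      rwa [this]
  · intro g hg hg1
    rw [hcone', Set.eq_empty_iff_forall_notMem]
    obtain ⟨φ, hφ0, hφ1, hφ2⟩ := hS3 g hg hg1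
    rintro x ⟨hx, y, hy, rfl⟩
    have h4 := hφ2 y hy
    obtain ⟨w, hw⟩ : ∃ w, 0 < φ w := by
      by_contra hcon
      push Not at hcon
      apply hφ0
      ext w
      have e1 := hcon w
      have e2 := hcon (-w)
      rw [map_neg] at e2
      change φ w = 0
      linarith
    have hcont : Continuous fun t : ℝ => g y - t • w := by fun_prop
    have hmem : ∀ᶠ t : ℝ in 𝓝 0, g y - t • w ∈ interior (cone S) := by
      apply hcont.continuousAt.eventually_mem
      rw [zero_smul, sub_zero]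
      exact isOpen_interior.mem_nhds hx
    obtain ⟨ε, hε, hball⟩ := Metric.eventually_nhds_iff.1 hmem
    have h5 := interior_subset (hball (y := ε / 2) (by
      rw [Real.dist_eq, sub_zero, abs_of_pos (by linarith)]
      linarith))
    have h6 := hφ1 _ h5
    rw [map_sub, map_smul, smul_eq_mul] at h6
    have h7 : 0 < ε / 2 * φ w := by positivity
    linarith

end Pool.Agent.H899.ER
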