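import Pool.Graph.R_pool_sql_team_seeded_47a924f7.T6.H34.EK.Defs

/-!
# Relative cones of quotients of blow-ups by finite groups: definitions

`Γ` is a group of affine transformations of the complex vector space `V`, and `X` is the quotient by
`Γ` of the blow-up of `V` along the orbit of `0`, as in `Pool.Agent.T6.H34.EK.Defs`; the line bundles
on `X` (`QBundle`) are defined there. We consider a fibration `X → Z` given by an injective linear map
`j : E → V`, the inclusion of the kernel of the linear map `V → V / E` which gives the map `X → Z`.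
-/

set_option autoImplicit false

namespace Pool.Agent.H899.ER

open Filter Topology
open Pool.Agent.R895 (Lat BlBundle act IsClass)
open Pool.Agent.Y167 (AffGrp cone)
open Pool.Agent.Y167.CC (LinGrp Preserves IsFundDomain)
open Pool.Agent.T6.H34.EK (QBundle)

variable {V E : Type*} [NormedAddCommGroup V] [NormedSpace ℂ V]
  [NormedAddCommGroup E] [NormedSpace ℂ E]

/-- The real vector space spanned by the classes in `N^1(X/Z)` of line bundles on `X`. The class of a
line bundle is the restriction to `E` of its Chern form, together with the coefficient `k` of `-Ẽ`. -/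
noncomputable def NRs (Γ : AffGrp V) (j : E →ₗ[ℂ] V) : Submodule ℝ ((E → E → ℂ) × ℝ) :=
  Submodule.span ℝ {x | ∃ L : QBundle Γ, IsClass j L.toBlBundle x}

/-- The space `N^1(X/Z)` of numerical classes with real coefficients. -/
def NR (Γ : AffGrp V) (j : E →ₗ[ℂ] V) : Type _ := NRs Γ j

variable {Γ : AffGrp V} {j : E →ₗ[ℂ] V}

noncomputable instance : AddCommGroup (NR Γ j) := Submodule.addCommGroup (NRs Γ j)

noncomputable instance : Module ℝ (NR Γ j) := Submodule.module (NRs Γ j)

noncomputable instance : TopologicalSpace (NR Γ j) :=
  instTopologicalSpaceSubtype (p := fun h => h ∈ NRs Γ j)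

/-- The hermitian form of the class `x`. -/
def form (x : NR Γ j) : E → E → ℂ := x.1.1

/-- The coefficient of `-Ẽ` in the class `x`. -/
def coef (x : NR Γ j) : ℝ := x.1.2

/-- The integral classes: the classes of line bundles. -/
def integral (Γ : AffGrp V) (j : E →ₗ[ℂ] V) : Set (NR Γ j) :=
  {x | ∃ L : QBundle Γ, IsClass j L.toBlBundle (form x, coef x)}

/-- The classes of semiample line bundles. -/
def semiample (Γ : AffGrp V) (j : E →ₗ[ℂ] V) : Set (NR Γ j) :=
  {x | ∃ L : QBundle Γ, IsClass j L.toBlBundle (form x, coef x) ∧ L.IsSemiample}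

/-- The classes of effective Cartier divisors: the classes of line bundles which have a section, not
identically zero. -/
def effective (Γ : AffGrp V) (j : E →ₗ[ℂ] V) : Set (NR Γ j) :=
  {x | ∃ (L : QBundle Γ) (s : V → ℂ), IsClass j L.toBlBundle (form x, coef x) ∧ L.IsSection s ∧
    ∃ v, s v ≠ 0}

/-- The convex cone spanned by the set `A`. -/
def span (A : Set (NR Γ j)) : Set (NR Γ j) := {x | ∃ S : Finset (NR Γ j), ↑S ⊆ A ∧ x ∈ cone S}

/-- The relative nef cone: the closure of the convex cone spanned by the classes of semiample line
bundles. (By Kleiman's criterion the nef cone is the closure of the relative ample cone, and each line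
bundle on `X` which is ample over `Z` becomes ample when it is twisted with the pullback of a line
bundle on `Z`, which does not change its class.) -/
def nefCone (Γ : AffGrp V) (j : E →ₗ[ℂ] V) : Set (NR Γ j) := closure (span (semiample Γ j))

/-- The relative effective cone: the convex cone spanned by the classes of effective divisors. (It is
not closed in general.) -/
def effCone (Γ : AffGrp V) (j : E →ₗ[ℂ] V) : Set (NR Γ j) := span (effective Γ j)

/-- The cone `A^e(X/Z)` of nef and effective classes. -/
def nefEff (Γ : AffGrp V) (j : E →ₗ[ℂ] V) : Set (NR Γ j) := nefCone Γ j ∩ effCone Γ j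

/-- `g` is the pullback `f^*` on `N^1(X/Z)` by the automorphism of `X` induced by the linear
automorphism `f` of `V`. -/
def IsPullback (f : V ≃ₗ[ℂ] V) (g : NR Γ j ≃ₗ[ℝ] NR Γ j) : Prop :=
  (∀ (x : NR Γ j) (u w u' w' : E), j u' = f (j u) → j w' = f (j w) →
    form (g x) u w = form x u' w') ∧ ∀ x : NR Γ j, coef (g x) = coef x

/-- The automorphism `f` of `V` induces the identity on `V / j(E)`. -/
def IsOver (j : E →ₗ[ℂ] V) (f : V ≃ₗ[ℂ] V) : Prop := ∀ v, ∃ u, f v = v + j u

/-- `𝒢` is a group of linear automorphisms of `N^1(X/Z)` which preserves the integral classes and the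
cone of nef and effective classes, and which contains the pullbacks `f^*` by all automorphisms of `X`
over `Z` which are induced by linear automorphisms `f` of `V` (the map `f` is assumed to induce the
identity on `V / j(E)`). The image of `Aut(X/Z)` has these properties. -/
structure IsAutGroup (𝒢 : LinGrp (NR Γ j)) : Prop where
  int : Preserves 𝒢 (integral Γ j)
  nef_eff : Preserves 𝒢 (nefEff Γ j)
  lin : ∀ (f : V ≃ₗ[ℂ] V) (g : NR Γ j ≃ₗ[ℝ] NR Γ j),
    Pool.Agent.R895.Normalizes Γ f → IsOver j f → IsPullback f g → g ∈ 𝒢

/-- There is a finite set `S` of integral classes such that the cone `Π` spanned by `S` consists of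
nef effective classes and is a fundamental domain for the action of `𝒢` on the cone `A^e(X/Z)`. -/
def HasDomain (𝒢 : LinGrp (NR Γ j)) : Prop :=
  ∃ S : Finset (NR Γ j), ↑S ⊆ integral Γ j ∧ cone S ⊆ nefEff Γ j ∧
    IsFundDomain 𝒢 (nefEff Γ j) (cone S)

end Pool.Agent.H899.ER
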