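import Pool.Agent.H899.ER.Cov

/-!
# Fibrations given by invariant subspaces
-/

set_option autoImplicit false

namespace Pool.Agent.H899.ER

open Pool.Agent.R895 (Lat IsExt ext)
open Pool.Agent.T6.H34.EK (PresLat)

/-- The inclusion `ℂ^r → ℂ^(p + r)` of the last `r` coordinates. -/
def incl (p r : ℕ) : (Fin r → ℂ) →ₗ[ℂ] (Fin (p + r) → ℂ) where
  toFun u := Fin.append 0 u
  map_add' u w := by
    ext i
    refine Fin.addCases (fun a => ?_) (fun b => ?_) i <;> simp
  map_smul' a u := by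
    ext i
    refine Fin.addCases (fun a => ?_) (fun b => ?_) i <;> simp

theorem incl_isExt (p r : ℕ) : IsExt (Fin.natAdd p) (incl p r) := by
  classical
  intro u
  funext i
  change (Fin.append (0 : Fin p → ℂ) u) i = ext (Fin.natAdd p) u i
  unfold ext
  refine Fin.addCases (fun a => ?_) (fun b => ?_) i
  · rw [Fin.append_left]
    refine (Finset.sum_eq_zero fun c _ => if_neg ?_).symm
    intro h
    have := congrArg Fin.val h
    simp at this
    omega
  · rw [Fin.append_right, Finset.sum_eq_single b]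
    · rw [if_pos rfl]
    · intro c _ hc
      exact if_neg fun h => hc (Fin.natAdd_injective _ _ h)
    · intro h
      exact absurd (Finset.mem_univ _) h

/-- The subspace `j(ℂ^r)` is mapped to itself by the elements of `G`. -/
def Stable {n r : ℕ} (G : Subgroup ((Fin n → ℂ) ≃ₗ[ℂ] (Fin n → ℂ)))
    (j : (Fin r → ℂ) →ₗ[ℂ] (Fin n → ℂ)) : Prop := ∀ g ∈ G, ∀ u, ∃ w, g (j u) = j w

variable {n r : ℕ} {G : Subgroup ((Fin n → ℂ) ≃ₗ[ℂ] (Fin n → ℂ))}
  {j : (Fin r → ℂ) →ₗ[ℂ] (Fin n → ℂ)} {ρ : Fin r → Fin n}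

/-- The group of the restrictions of the elements of `G`. -/
def rg (G : Subgroup ((Fin n → ℂ) ≃ₗ[ℂ] (Fin n → ℂ))) (j : (Fin r → ℂ) →ₗ[ℂ] (Fin n → ℂ)) :
    Subgroup ((Fin r → ℂ) ≃ₗ[ℂ] (Fin r → ℂ)) where
  carrier := {a | ∃ g ∈ G, ∀ u, g (j u) = j (a u)}
  one_mem' := ⟨1, G.one_mem, fun _ => rfl⟩
  mul_mem' := by
    rintro a b ⟨g, hg, h1⟩ ⟨g', hg', h1'⟩
    refine ⟨g * g', G.mul_mem hg hg', fun u => ?_⟩
    change g (g' (j u)) = j (a (b u))
    rw [h1', h1]
  inv_mem' := by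
    rintro a ⟨g, hg, h1⟩
    refine ⟨g⁻¹, G.inv_mem hg, fun u => ?_⟩
    apply g.injective
    have h2 : ∀ w, g (g⁻¹ w) = w := fun w => g.apply_symm_apply w
    have h3 : a (a⁻¹ u) = u := a.apply_symm_apply u
    rw [h2, h1, h3]

theorem restr (hS : Stable G j) (hj : Function.Injective j) : Restr G j (rg G j) := by
  refine ⟨fun g hg => ?_, fun a ha => ha⟩
  choose f hf using hS g hg
  choose f' hf' using hS g⁻¹ (G.inv_mem hg)
  have h1 : ∀ u, f' (f u) = u := fun u => by
    apply hj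
    rw [← hf', ← hf]
    exact g.symm_apply_apply _
  have h2 : ∀ u, f (f' u) = u := fun u => by
    apply hj
    rw [← hf, ← hf']
    exact g.apply_symm_apply _
  let a : (Fin r → ℂ) ≃ₗ[ℂ] (Fin r → ℂ) :=
    { toFun := f
      map_add' := fun u w => by
        apply hj
        rw [← hf, map_add, map_add, hf, hf, map_add]
      map_smul' := fun c u => by
        apply hj
        rw [← hf, map_smul, map_smul, hf, RingHom.id_apply, map_smul]
      invFun := f'
      left_inv := h1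
      right_inv := h2 }
  exact ⟨a, ⟨g, hg, hf⟩, hf⟩

theorem rg_finite [Finite G] (hj : Function.Injective j) : Finite (rg G j) := by
  classical
  have h1 : ∀ a : rg G j, ∃ g : G, ∀ u,
      (g : (Fin n → ℂ) ≃ₗ[ℂ] (Fin n → ℂ)) (j u) = j ((a : (Fin r → ℂ) ≃ₗ[ℂ] (Fin r → ℂ)) u) :=
    fun a => by
      obtain ⟨g, hg, h⟩ := a.2
      exact ⟨⟨g, hg⟩, h⟩
  choose f hf using h1
  refine Finite.of_injective f fun a b hab => ?_
  apply Subtype.ext
  ext1 u
  apply hj
  rw [← hf, ← hf, hab]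

theorem rg_pres (hG : PresLat G) (hj : IsExt ρ j) (hρ : Function.Injective ρ) :
    PresLat (rg G j) := by
  rintro a ⟨g, hg, h1⟩ v hv
  have h2 : Lat (g (j v)) := hG g hg _ (hj.lat hv)
  rw [h1] at h2
  intro i
  have h3 := h2 (ρ i)
  have h4 := congrFun (hj.comp hρ (a v)) i
  change j (a v) (ρ i) = a v i at h4
  rwa [h4] at h3

end Pool.Agent.H899.ER
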