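import Pool.Agent.H899.ER.Cls

/-!
# The data for the fundamental domain
-/

set_option autoImplicit false
set_option maxHeartbeats 400000

namespace Pool.Agent.H899.ER

open Filter Topology
open Pool.Agent.W594.SYZ2 (IsHermitian)
open Pool.Agent.R895 (Lat BlBundle act kum N1 N1s IsEis IsClass std frm kap Nf Dat IsExt exH exH_herm
  exH_int co mem_co frm_add frm_smul frm_sub frm_zero form_frm N1_ext' kap_ne re_natMul frm_herm
  std_dat std_herm std_int std_pos std_nonneg one_le_std le_std xi)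
open Pool.Agent.Y167 (AffGrp cone CData Pol Cp cone_ind cone_add cone_smul cone_sum cone_le
  mem_cone_self mem_cone_of_sum zero_mem_cone cone_mono)
open Pool.Agent.T6.H34.EK (QBundle PresLat grp NS NSs res IsCls c0 c0_pos c0_real avg avg_dat avg_inv
  avg_re avg_of_inv Inv std_le_avg re_twice inv_comb)

variable {n r : ℕ} {G : Subgroup ((Fin n → ℂ) ≃ₗ[ℂ] (Fin n → ℂ))} {hG : PresLat G}
  {j : (Fin r → ℂ) →ₗ[ℂ] (Fin n → ℂ)} {ρ : Fin r → Fin n}
  {K : Subgroup ((Fin r → ℂ) ≃ₗ[ℂ] (Fin r → ℂ))} {h : (Fin r → ℂ) → (Fin r → ℂ) → ℂ}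
  [Fintype G] [Fintype K]

theorem exists_y₀ [Nonempty (Fin n)] (hG : PresLat G) (hK : PresLat K) (hR : Restr G j K)
    (hj : IsExt ρ j) (hρ : Function.Injective ρ) :
    ∃ y : NR (grp G hG) j, y ∈ integral (grp G hG) j ∧
      (∀ u w, frm (up y) u w = cr G * (((2 : ℕ) : ℂ) * avg K std u w)) ∧ coef y = cr G := by
  obtain ⟨y, h1, h2, h3⟩ := exists_cls hG hR hj hρ ((avg_dat hK std_dat).natMul 2)
    (fun g hg u w => by rw [avg_inv std g hg]) 1
  exact ⟨y, h1, h2, by rw [h3]; simp⟩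

/-- The trace of the form of a class. -/
noncomputable def xiR (hG : PresLat G) (j : (Fin r → ℂ) →ₗ[ℂ] (Fin n → ℂ)) :
    NR (grp G hG) j →ₗ[ℝ] ℝ := (xi 1 j) ∘ₗ upL

omit [Fintype K] in
theorem re_cr (z : ℂ) : ((cr G : ℂ) * z).re = cr G * z.re := re_natMul _ _

theorem y_int {y₀ : NR (grp G hG) j}
    (hy1 : ∀ u w, frm (up y₀) u w = cr G * (((2 : ℕ) : ℂ) * avg K std u w)) (hy2 : coef y₀ = cr G)
    (x : NR (grp G hG) j) : ∃ C : ℝ, 0 < C ∧ C • y₀ - x ∈ NfR hG j := by
  obtain ⟨C, hC, h1⟩ := le_std (frm_herm (up x))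
  have hre : ∀ v : Fin r → ℂ, (frm (up y₀) v v).re = cr G * (2 * (avg K std v v).re) := by
    intro v
    rw [hy1, re_twice]
  have hc1 := one_le_cr (G := G)
  have hkey : ∀ v : Fin r → ℂ, 2 * (std v v).re ≤ (frm (up y₀) v v).re := by
    intro v
    rw [hre]
    have h2 := std_le_avg (G := K) v
    have h3 := std_nonneg v
    nlinarith
  have hsub : ∀ v : Fin r → ℂ, (frm (up ((C + |coef x| + 1) • y₀ - x)) v v).re =
      (C + |coef x| + 1) * (frm (up y₀) v v).re - (frm (up x) v v).re := by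
    intro v
    rw [up_sub, up_smul, frm_sub, frm_smul, Complex.sub_re, Complex.re_ofReal_mul]
  have hcoef : coef ((C + |coef x| + 1) • y₀ - x) = (C + |coef x| + 1) * cr G - coef x := by
    rw [coef_sub, coef_smul, hy2]
  refine ⟨C + |coef x| + 1, by positivity, fun v => ?_, ?_, fun v hv hv0 => ?_⟩
  · rw [hsub]
    have h2 := std_nonneg v
    have h3 := h1 v
    have h4 := mul_nonneg (abs_nonneg (coef x)) h2
    have h5 := hkey v
    have h6 : (C + |coef x| + 1) * (2 * (std v v).re) ≤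
        (C + |coef x| + 1) * (frm (up y₀) v v).re :=
      mul_le_mul_of_nonneg_left h5 (by positivity)
    nlinarith
  · rw [coef_up, hcoef]
    have := le_abs_self (coef x)
    have := abs_nonneg (coef x)
    nlinarith
  · rw [hsub, coef_up, hcoef]
    have h2 := one_le_std hv hv0
    have h3 := h1 v
    have h5 := neg_abs_le (coef x)
    have h6 := abs_nonneg (coef x)
    have h7 := std_le_avg (G := K) v
    rw [hre]
    have h8 : (C + |coef x| + 1) * (cr G * (std v v).re + cr G * 1) ≤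
        (C + |coef x| + 1) * (cr G * (2 * (avg K std v v).re)) := by
      refine mul_le_mul_of_nonneg_left ?_ (by positivity)
      nlinarith
    have h9 : (C + |coef x| + 1) * (1 * (std v v).re) ≤
        (C + |coef x| + 1) * (cr G * (std v v).re) := by
      refine mul_le_mul_of_nonneg_left ?_ (by positivity)
      exact mul_le_mul_of_nonneg_right hc1 (by linarith)
    have h10 : |coef x| * 1 ≤ |coef x| * (std v v).re := mul_le_mul_of_nonneg_left h2 h6
    nlinarith

theorem y_N {y₀ : NR (grp G hG) j}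
    (hy1 : ∀ u w, frm (up y₀) u w = cr G * (((2 : ℕ) : ℂ) * avg K std u w))
    (hy2 : coef y₀ = cr G) : y₀ ∈ NfR hG j := by
  have hre : ∀ v : Fin r → ℂ, (frm (up y₀) v v).re = cr G * (2 * (avg K std v v).re) := by
    intro v
    rw [hy1, re_twice]
  have hc1 := cr_real (G := G)
  refine ⟨fun v => ?_, by rw [coef_up, hy2]; exact hc1.le, fun v hv hv0 => ?_⟩
  · rw [hre]
    have h1 := std_nonneg v
    have h2 := std_le_avg (G := K) v
    have h3 : 0 ≤ (avg K std v v).re := h1.trans h2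
    positivity
  · rw [hre, coef_up, hy2]
    have h1 := one_le_std hv hv0
    have h2 := std_le_avg (G := K) v
    nlinarith

/-- The data for the fundamental domain. -/
theorem exists_cdata (hj : IsExt ρ j) (hρ : Function.Injective ρ) (hn : 0 < n) (hr : 0 < r)
    {y₀ : NR (grp G hG) j} (hy0 : y₀ ∈ integral (grp G hG) j)
    (hy1 : ∀ u w, frm (up y₀) u w = cr G * (((2 : ℕ) : ℂ) * avg K std u w))
    (hy2 : coef y₀ = cr G) :
    ∃ Y : Finset (NR (grp G hG) j), CData (LR hG j) (NfR hG j) (xiR hG j) y₀ Y := by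
  classical
  have : Nonempty (Fin n) := ⟨⟨0, hn⟩⟩
  have hfin : FiniteDimensional ℝ (NR (grp G hG) j) := finite_NR
  obtain ⟨y₁, k0, k1, k2⟩ := Pool.Agent.R895.exists_y₀ (ρ := ρ) (j := j) 1 hj hρ
  obtain ⟨Y₁, D₁⟩ := Pool.Agent.R895.exists_cdata hj hr k0 k1 k2
  have hyNf : y₀ ∈ NfR hG j := y_N hy1 hy2
  have hyL : y₀ ∈ LR hG j := AddSubgroup.subset_closure hy0
  obtain ⟨t, ht, htspan, htli⟩ := exists_linearIndependent ℝ (integral (grp G hG) j)
  have htfin : t.Finite := htli.setFinite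
  have hchoose : ∀ x : NR (grp G hG) j, ∃ n : ℕ, (n : ℝ) • y₀ - x ∈ NfR hG j := by
    intro x
    obtain ⟨C, hC, h1⟩ := y_int hy1 hy2 x
    refine ⟨⌈C⌉₊, ?_⟩
    have h2 : ((⌈C⌉₊ : ℝ) - C) • y₀ ∈ NfR hG j := NfR_smul (sub_nonneg.2 (Nat.le_ceil C)) hyNf
    have h3 := NfR_add h2 h1
    have h4 : ((⌈C⌉₊ : ℝ) - C) • y₀ + (C • y₀ - x) = (⌈C⌉₊ : ℝ) • y₀ - x := by
      module
    rwa [h4] at h3
  choose nf hnf using hchoose
  refine ⟨insert y₀ (htfin.toFinset.image fun x => (nf x : ℝ) • y₀ - x),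
    { add := fun x hx y hy => NfR_add hx hy
      smul := fun t ht x hx => NfR_smul ht hx
      xi_int := fun x hx => D₁.xi_int (up x) (up_LR hx)
      xi_pos := fun x hx hx0 => D₁.xi_pos (up x) hx fun h0 => hx0 (up_inj (h0.trans up_zero.symm))
      fin := fun C => ?_
      y_L := hyL
      y_N := hyNf
      y_int := y_int hy1 hy2
      dom := fun η => ?_
      sep := fun x hx => ?_
      Y_mem := fun y hy => ?_
      Y_span := fun φ hφ => ?_ }⟩
  · refine Set.Finite.subset ((D₁.fin C).preimage up_inj.injOn) fun x hx => ?_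
    exact ⟨up_LR hx.1, hx.2.1, hx.2.2⟩
  · obtain ⟨g, hg⟩ := LinearMap.exists_leftInverse_of_injective (upL (G := G) (hG := hG) (j := j))
      (LinearMap.ker_eq_bot.2 up_inj)
    obtain ⟨C, hC⟩ := D₁.dom (η ∘ₗ g)
    refine ⟨C, fun x hx => ?_⟩
    have h1 := hC (up x) hx
    have h2 : (η ∘ₗ g) (up x) = η x := by
      change η (g (upL x)) = η x
      rw [show g (upL x) = x from LinearMap.congr_fun hg x]
    rw [h2] at h1
    exact h1
  · obtain ⟨η, h1, h2⟩ := D₁.sep (up x) fun h0 => hx (up_inj (h0.trans up_zero.symm))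
    exact ⟨η ∘ₗ upL, fun y hy => h1 (up y) (up_LR hy), h2⟩
  · rcases Finset.mem_insert.1 hy with rfl | h
    · exact ⟨hyL, hyNf⟩
    · obtain ⟨x, hx, rfl⟩ := Finset.mem_image.1 h
      rw [htfin.mem_toFinset] at hx
      refine ⟨AddSubgroup.sub_mem _ ?_ (AddSubgroup.subset_closure (ht hx)), hnf x⟩
      rw [Nat.cast_smul_eq_nsmul]
      exact AddSubgroup.nsmul_mem _ hyL _
  · have h0 : φ y₀ = 0 := hφ _ (Finset.mem_insert_self _ _)
    have h1 : ∀ x ∈ t, φ x = 0 := by
      intro x hx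
      have h2 := hφ ((nf x : ℝ) • y₀ - x)
        (Finset.mem_insert_of_mem (Finset.mem_image_of_mem _ (htfin.mem_toFinset.2 hx)))
      rw [map_sub, map_smul φ (nf x : ℝ), h0, smul_zero, zero_sub, neg_eq_zero] at h2
      exact h2
    have h2 : (⊤ : Submodule ℝ (NR (grp G hG) j)) ≤ LinearMap.ker φ := by
      rw [← span_integral, ← htspan, Submodule.span_le]
      intro x hx
      exact h1 x hx
    exact LinearMap.ker_eq_top.1 (top_le_iff.1 h2)

end Pool.Agent.H899.ER
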