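import Pool.Agent.H899.ER.Red

/-!
# Automorphisms over the base
-/

set_option autoImplicit false
set_option maxHeartbeats 400000

namespace Pool.Agent.H899.ER

open Filter Topology
open Pool.Agent.W594.SYZ2 (IsHermitian)
open Pool.Agent.R895 (Lat BlBundle act kum N1 N1s IsEis IsClass std frm kap Nf Dat IsExt
  frm_add frm_smul frm_sub frm_zero form_frm N1_ext' Normalizes)
open Pool.Agent.Y167 (AffGrp cone)
open Pool.Agent.T6.H34.EK (QBundle PresLat grp IsCls pullQ isCls_pullQ normalizes_of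
  normalizes_symm)

variable {n r : ℕ} {G : Subgroup ((Fin n → ℂ) ≃ₗ[ℂ] (Fin n → ℂ))} {hG : PresLat G}
  {j : (Fin r → ℂ) →ₗ[ℂ] (Fin n → ℂ)} {ρ : Fin r → Fin n}
  {K : Subgroup ((Fin r → ℂ) ≃ₗ[ℂ] (Fin r → ℂ))}

section dn

/-- The restriction of an element of `G`. -/
noncomputable def dn (hR : Restr G j K) (g : G) : (Fin r → ℂ) ≃ₗ[ℂ] (Fin r → ℂ) :=
  (hR.down g g.2).choose

theorem dn_mem (hR : Restr G j K) (g : G) : dn hR g ∈ K := (hR.down g g.2).choose_spec.1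

theorem dn_j (hR : Restr G j K) (g : G) (u : Fin r → ℂ) :
    (g : (Fin n → ℂ) ≃ₗ[ℂ] (Fin n → ℂ)) (j u) = j (dn hR g u) := (hR.down g g.2).choose_spec.2 u

theorem dn_mul (hR : Restr G j K) (hj : Function.Injective j) (g g' : G) (u : Fin r → ℂ) :
    dn hR (g * g') u = dn hR g (dn hR g' u) := by
  apply hj
  rw [← dn_j, ← dn_j, ← dn_j]
  rfl

variable [Fintype G]

/-- The restriction of vectors to the coordinates in the image of `ρ`. -/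
def pr (ρ : Fin r → Fin n) : (Fin n → ℂ) →ₗ[ℂ] (Fin r → ℂ) where
  toFun v := v ∘ ρ
  map_add' _ _ := rfl
  map_smul' _ _ := rfl

/-- The equivariant projection, multiplied by the order of `G`. -/
noncomputable def pj (ρ : Fin r → Fin n) (hR : Restr G j K) : (Fin n → ℂ) →ₗ[ℂ] (Fin r → ℂ) :=
  ∑ g : G, ((dn hR g).symm : (Fin r → ℂ) →ₗ[ℂ] (Fin r → ℂ)) ∘ₗ (pr ρ) ∘ₗ
    ((g : (Fin n → ℂ) ≃ₗ[ℂ] (Fin n → ℂ)) : (Fin n → ℂ) →ₗ[ℂ] (Fin n → ℂ))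

theorem pj_apply (hR : Restr G j K) (v : Fin n → ℂ) : pj ρ hR v = ∑ g : G,
    (dn hR g).symm (pr ρ ((g : (Fin n → ℂ) ≃ₗ[ℂ] (Fin n → ℂ)) v)) := by
  unfold pj
  rw [LinearMap.sum_apply]
  rfl

theorem pj_j (hR : Restr G j K) (hj : IsExt ρ j) (hρ : Function.Injective ρ) (u : Fin r → ℂ) :
    pj ρ hR (j u) = (Fintype.card G : ℂ) • u := by
  rw [pj_apply]
  have h1 : ∀ g : G, (dn hR g).symm (pr ρ ((g : (Fin n → ℂ) ≃ₗ[ℂ] (Fin n → ℂ)) (j u))) = u := by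
    intro g
    rw [dn_j hR]
    have h2 : pr ρ (j (dn hR g u)) = dn hR g u := hj.comp hρ _
    rw [h2, LinearEquiv.symm_apply_apply]
  rw [Finset.sum_congr rfl fun g _ => h1 g, Finset.sum_const, Finset.card_univ,
    ← Nat.cast_smul_eq_nsmul ℂ]

theorem pj_g (hR : Restr G j K) (hj : Function.Injective j) (g₀ : G) (v : Fin n → ℂ) :
    pj ρ hR ((g₀ : (Fin n → ℂ) ≃ₗ[ℂ] (Fin n → ℂ)) v) = dn hR g₀ (pj ρ hR v) := by
  rw [pj_apply, pj_apply, map_sum]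
  refine Fintype.sum_equiv (Equiv.mulRight g₀) _ _ fun g => ?_
  change _ = dn hR g₀ ((dn hR (g * g₀)).symm (pr ρ (((g * g₀ : G) :
    (Fin n → ℂ) ≃ₗ[ℂ] (Fin n → ℂ)) v)))
  have h1 : ((g * g₀ : G) : (Fin n → ℂ) ≃ₗ[ℂ] (Fin n → ℂ)) v =
    (g : (Fin n → ℂ) ≃ₗ[ℂ] (Fin n → ℂ)) ((g₀ : (Fin n → ℂ) ≃ₗ[ℂ] (Fin n → ℂ)) v) := rfl
  rw [h1]
  set w := pr ρ ((g : (Fin n → ℂ) ≃ₗ[ℂ] (Fin n → ℂ))
    ((g₀ : (Fin n → ℂ) ≃ₗ[ℂ] (Fin n → ℂ)) v)) with hw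
  apply (dn hR g).injective
  rw [LinearEquiv.apply_symm_apply, ← dn_mul hR hj, LinearEquiv.apply_symm_apply]

theorem pj_lat (hG : PresLat G) (hK : PresLat K) (hR : Restr G j K) {v : Fin n → ℂ} (hv : Lat v) :
    Lat (pj ρ hR v) := by
  rw [pj_apply]
  refine lat_sum _ _ fun g _ => ?_
  have h1 : Lat ((g : (Fin n → ℂ) ≃ₗ[ℂ] (Fin n → ℂ)) v) := hG g g.2 v hv
  have h2 : Lat (pr ρ ((g : (Fin n → ℂ) ≃ₗ[ℂ] (Fin n → ℂ)) v)) := fun a => h1 (ρ a)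
  exact hK _ (K.inv_mem (dn_mem hR g)) _ h2

/-- The lift of an automorphism of `ℂ^r`. -/
noncomputable def lf (ρ : Fin r → Fin n) (hR : Restr G j K)
    (u : (Fin r → ℂ) →ₗ[ℂ] (Fin r → ℂ)) : (Fin n → ℂ) →ₗ[ℂ] (Fin n → ℂ) :=
  LinearMap.id + ((Fintype.card G : ℂ)⁻¹) • (j ∘ₗ (u - LinearMap.id) ∘ₗ pj ρ hR)

theorem lf_apply (hR : Restr G j K) (u : (Fin r → ℂ) →ₗ[ℂ] (Fin r → ℂ)) (v : Fin n → ℂ) :
    lf ρ hR u v = v + (Fintype.card G : ℂ)⁻¹ • j (u (pj ρ hR v) - pj ρ hR v) := rfl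

theorem card_ne : (Fintype.card G : ℂ) ≠ 0 := by exact_mod_cast Fintype.card_ne_zero (α := G)

theorem pj_lf (hR : Restr G j K) (hj : IsExt ρ j) (hρ : Function.Injective ρ)
    (u : (Fin r → ℂ) →ₗ[ℂ] (Fin r → ℂ)) (v : Fin n → ℂ) :
    pj ρ hR (lf ρ hR u v) = u (pj ρ hR v) := by
  rw [lf_apply, map_add, map_smul, pj_j hR hj hρ, smul_smul, inv_mul_cancel₀ card_ne, one_smul,
    add_sub_cancel]

theorem lf_lf (hR : Restr G j K) (hj : IsExt ρ j) (hρ : Function.Injective ρ)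
    (u t : (Fin r → ℂ) →ₗ[ℂ] (Fin r → ℂ)) (v : Fin n → ℂ) :
    lf ρ hR u (lf ρ hR t v) = lf ρ hR (u ∘ₗ t) v := by
  rw [lf_apply hR u, pj_lf hR hj hρ, lf_apply, lf_apply, add_assoc, ← smul_add, ← map_add,
    LinearMap.comp_apply]
  congr 3
  abel

theorem lf_id (hR : Restr G j K) (v : Fin n → ℂ) : lf ρ hR LinearMap.id v = v := by
  rw [lf_apply, LinearMap.id_apply, sub_self, map_zero, smul_zero, add_zero]

/-- The lift of an automorphism of `ℂ^r`. -/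
noncomputable def le (hR : Restr G j K) (hj : IsExt ρ j) (hρ : Function.Injective ρ)
    (u : (Fin r → ℂ) ≃ₗ[ℂ] (Fin r → ℂ)) : (Fin n → ℂ) ≃ₗ[ℂ] (Fin n → ℂ) :=
  LinearEquiv.ofLinearMap (lf ρ hR (u : (Fin r → ℂ) →ₗ[ℂ] (Fin r → ℂ)))
    (lf ρ hR (u.symm : (Fin r → ℂ) →ₗ[ℂ] (Fin r → ℂ)))
    (LinearMap.ext fun v => by
      rw [LinearMap.comp_apply, lf_lf hR hj hρ, ← LinearEquiv.coe_trans, LinearEquiv.symm_trans_self]
      exact lf_id hR v)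
    (LinearMap.ext fun v => by
      rw [LinearMap.comp_apply, lf_lf hR hj hρ, ← LinearEquiv.coe_trans, LinearEquiv.self_trans_symm]
      exact lf_id hR v)

theorem le_apply (hR : Restr G j K) (hj : IsExt ρ j) (hρ : Function.Injective ρ)
    (u : (Fin r → ℂ) ≃ₗ[ℂ] (Fin r → ℂ)) (v : Fin n → ℂ) : le hR hj hρ u v =
      v + (Fintype.card G : ℂ)⁻¹ • j (u (pj ρ hR v) - pj ρ hR v) := rfl

theorem le_symm (hR : Restr G j K) (hj : IsExt ρ j) (hρ : Function.Injective ρ)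
    (u : (Fin r → ℂ) ≃ₗ[ℂ] (Fin r → ℂ)) : (le hR hj hρ u).symm = le hR hj hρ u.symm := by
  ext v
  rfl

theorem le_j (hR : Restr G j K) (hj : IsExt ρ j) (hρ : Function.Injective ρ)
    (u : (Fin r → ℂ) ≃ₗ[ℂ] (Fin r → ℂ)) (v : Fin r → ℂ) : le hR hj hρ u (j v) = j (u v) := by
  rw [le_apply, pj_j hR hj hρ, map_smul, ← smul_sub, map_smul, smul_smul, inv_mul_cancel₀ card_ne,
    one_smul, map_sub, add_sub_cancel]

theorem le_over (hR : Restr G j K) (hj : IsExt ρ j) (hρ : Function.Injective ρ)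
    (u : (Fin r → ℂ) ≃ₗ[ℂ] (Fin r → ℂ)) : IsOver j (le hR hj hρ u) := fun v =>
  ⟨(Fintype.card G : ℂ)⁻¹ • (u (pj ρ hR v) - pj ρ hR v), by rw [le_apply, map_smul]⟩

theorem le_comm (hR : Restr G j K) (hj : IsExt ρ j) (hρ : Function.Injective ρ)
    {u : (Fin r → ℂ) ≃ₗ[ℂ] (Fin r → ℂ)} (hu : Cent K u) {g : (Fin n → ℂ) ≃ₗ[ℂ] (Fin n → ℂ)}
    (hg : g ∈ G) (v : Fin n → ℂ) : le hR hj hρ u (g v) = g (le hR hj hρ u v) := by
  have h1 := pj_g (ρ := ρ) hR (hj.inj hρ) ⟨g, hg⟩ v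
  have h2 := dn_j hR ⟨g, hg⟩
  have h1' : pj ρ hR (g v) = dn hR ⟨g, hg⟩ (pj ρ hR v) := h1
  have h2' : ∀ u, g (j u) = j (dn hR ⟨g, hg⟩ u) := h2
  rw [le_apply, le_apply, h1', hu.comm _ (dn_mem hR _), ← map_sub (dn hR ⟨g, hg⟩), ← h2', map_add,
    map_smul]

theorem le_lat (hG : PresLat G) (hK : PresLat K) (hR : Restr G j K) (hj : IsExt ρ j)
    (hρ : Function.Injective ρ) {u : (Fin r → ℂ) ≃ₗ[ℂ] (Fin r → ℂ)}
    (hu : Cong (Fintype.card G) u) {v : Fin n → ℂ} (hv : Lat v) : Lat (le hR hj hρ u v) := by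
  obtain ⟨w, hw, h1⟩ := hu _ (pj_lat (ρ := ρ) hG hK hR hv)
  rw [le_apply, h1, add_sub_cancel_left, map_smul, smul_smul, inv_mul_cancel₀ card_ne, one_smul]
  exact fun i => (hv i).add (hj.lat hw i)

theorem le_norm (hG : PresLat G) (hK : PresLat K) (hR : Restr G j K) (hj : IsExt ρ j)
    (hρ : Function.Injective ρ) {u : (Fin r → ℂ) ≃ₗ[ℂ] (Fin r → ℂ)} (hc : Cent K u)
    (hu : Cong (Fintype.card G) u) : Normalizes (grp G hG) (le hR hj hρ u) := by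
  refine normalizes_of (fun v hv => le_lat hG hK hR hj hρ hu hv) (fun v hv => ?_)
    fun g hg v => le_comm hR hj hρ hc hg v
  rw [le_symm]
  exact le_lat hG hK hR hj hρ (hu.symm hc.lat') hv

end dn

section pull

theorem pb_mem {f : (Fin n → ℂ) ≃ₗ[ℂ] (Fin n → ℂ)} {u : (Fin r → ℂ) ≃ₗ[ℂ] (Fin r → ℂ)}
    (hf : Normalizes (grp G hG) f) (hu : ∀ v, f (j v) = j (u v))
    {x : ((Fin r → ℂ) → (Fin r → ℂ) → ℂ) × ℝ} (hx : x ∈ NRs (grp G hG) j) :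
    ((fun v w => x.1 (u v) (u w), x.2) : ((Fin r → ℂ) → (Fin r → ℂ) → ℂ) × ℝ) ∈
      NRs (grp G hG) j := by
  unfold NRs at hx
  induction hx using Submodule.span_induction with
  | mem x hx =>
    obtain ⟨L, H, h1, h2, h3⟩ := hx
    have h4 : IsCls L ((H, x.2) : ((Fin n → ℂ) → (Fin n → ℂ) → ℂ) × ℝ) := ⟨h1, h3⟩
    obtain ⟨k1, k2⟩ := isCls_pullQ hf h4
    refine Submodule.subset_span ⟨pullQ hf L, _, k1, fun v w => ?_, k2⟩
    dsimp only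
    rw [h2, hu, hu]
  | zero => exact Submodule.zero_mem _
  | add x y _ _ h1 h2 => exact Submodule.add_mem _ h1 h2
  | smul t x _ h1 => exact Submodule.smul_mem _ t h1

theorem pb_int {f : (Fin n → ℂ) ≃ₗ[ℂ] (Fin n → ℂ)} {u : (Fin r → ℂ) ≃ₗ[ℂ] (Fin r → ℂ)}
    (hf : Normalizes (grp G hG) f) (hu : ∀ v, f (j v) = j (u v))
    {x : ((Fin r → ℂ) → (Fin r → ℂ) → ℂ) × ℝ} (hx : ∃ L : QBundle (grp G hG),
      IsClass j L.toBlBundle x) : ∃ L : QBundle (grp G hG),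
      IsClass j L.toBlBundle (fun v w => x.1 (u v) (u w), x.2) := by
  obtain ⟨L, H, h1, h2, h3⟩ := hx
  have h4 : IsCls L ((H, x.2) : ((Fin n → ℂ) → (Fin n → ℂ) → ℂ) × ℝ) := ⟨h1, h3⟩
  obtain ⟨k1, k2⟩ := isCls_pullQ hf h4
  refine ⟨pullQ hf L, _, k1, fun v w => ?_, k2⟩
  dsimp only
  rw [h2, hu, hu]

/-- The action of an automorphism over the base on the classes. -/
theorem exists_pull (hji : Function.Injective j) {f : (Fin n → ℂ) ≃ₗ[ℂ] (Fin n → ℂ)}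
    {u : (Fin r → ℂ) ≃ₗ[ℂ] (Fin r → ℂ)}
    (hf : Normalizes (grp G hG) f) (hu : ∀ v, f (j v) = j (u v)) :
    ∃ g : NR (grp G hG) j ≃ₗ[ℝ] NR (grp G hG) j, IsPullback f g ∧
      (∀ x v w, form (g x) v w = form x (u v) (u w)) ∧ (∀ x, coef (g x) = coef x) := by
  have hf' := normalizes_symm hf
  have hu' : ∀ v, f.symm (j v) = j (u.symm v) := fun v => by
    rw [f.symm_apply_eq, hu, u.apply_symm_apply]
  let g : NR (grp G hG) j ≃ₗ[ℝ] NR (grp G hG) j :=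
    { toFun := fun x => ⟨(fun v w => x.1.1 (u v) (u w), x.1.2), pb_mem hf hu x.2⟩
      map_add' := fun x y => rfl
      map_smul' := fun c x => rfl
      invFun := fun x => ⟨(fun v w => x.1.1 (u.symm v) (u.symm w), x.1.2), pb_mem hf' hu' x.2⟩
      left_inv := fun x => by
        apply Subtype.ext
        refine Prod.ext ?_ rfl
        funext v w
        change x.1.1 (u (u.symm v)) (u (u.symm w)) = x.1.1 v w
        rw [u.apply_symm_apply, u.apply_symm_apply]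
      right_inv := fun x => by
        apply Subtype.ext
        refine Prod.ext ?_ rfl
        funext v w
        change x.1.1 (u.symm (u v)) (u.symm (u w)) = x.1.1 v w
        rw [u.symm_apply_apply, u.symm_apply_apply] }
  refine ⟨g, ⟨fun x v w v' w' hv hw => ?_, fun _ => rfl⟩, fun _ _ _ => rfl, fun _ => rfl⟩
  rw [hu] at hv hw
  rw [hji hv, hji hw]
  rfl

end pull

end Pool.Agent.H899.ER
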