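import Pool.Agent.H899.ER.Nef

/-!
# Reduction theory with a congruence condition
-/

set_option autoImplicit false
set_option maxHeartbeats 400000

namespace Pool.Agent.H899.ER

open Filter Topology
open Pool.Agent.W594.SYZ2 (IsHermitian)
open Pool.Agent.R895 (Lat BlBundle act kum N1 N1s IsEis IsClass std frm kap Nf Dat IsExt exH exH_herm
  exH_int co mem_co frm_add frm_smul frm_sub frm_zero form_frm N1_ext' kap_ne kap_pos re_natMul
  frm_herm std_dat std_herm std_int std_pos std_nonneg one_le_std le_std xi exists_ker lat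
  dat_of_isInt re_kap_div om lat_single)
open Pool.Agent.Y167 (AffGrp cone CData Pol Cp cone_ind cone_add cone_smul cone_sum cone_le
  mem_cone_self mem_cone_of_sum zero_mem_cone cone_mono)
open Pool.Agent.T6.H34.EK (QBundle PresLat grp NS NSs res IsCls c0 c0_pos c0_real avg avg_dat avg_inv
  avg_re avg_of_inv Inv std_le_avg re_twice gEnd exists_pol avg_le_std)

variable {n r : ℕ} {G : Subgroup ((Fin n → ℂ) ≃ₗ[ℂ] (Fin n → ℂ))} {hG : PresLat G}
  {j : (Fin r → ℂ) →ₗ[ℂ] (Fin n → ℂ)} {ρ : Fin r → Fin n}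
  {K : Subgroup ((Fin r → ℂ) ≃ₗ[ℂ] (Fin r → ℂ))} {h : (Fin r → ℂ) → (Fin r → ℂ) → ℂ}

theorem form_span (hR : Restr G j K) (hj : IsExt ρ j) (x : NR (grp G hG) j) :
    Pool.Agent.R895.form (up x) ∈ Submodule.span ℝ {z | Pol.IsInt (lat r) (gEnd K) z} := by
  obtain ⟨x, hx⟩ := x
  change x.1 ∈ _
  induction hx using Submodule.span_induction with
  | mem x hx =>
    have hx' : ∃ L : QBundle (grp G hG), IsClass j L.toBlBundle x := hx
    have hinv : ∀ a ∈ K, ∀ u w, x.1 (a u) (a w) = x.1 u w := fun a ha =>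
      form_inv hR (⟨x, Submodule.subset_span hx'⟩ : NR (grp G hG) j) ha
    obtain ⟨L, hL⟩ := hx
    obtain ⟨H, h2, h3, h4⟩ := res_isClass hL
    refine Submodule.subset_span ⟨⟨fun u v w => ?_, fun a v w => ?_, fun v w => ?_⟩, ?_,
      fun u hu w hw => ?_⟩
    · rw [h3, h3, h3, map_add, h2.1.add_left]
    · rw [h3, h3, map_smul, h2.1.smul_left]
    · rw [h3, h3]
      exact h2.1.symm _ _
    · rintro a ⟨g, hg, rfl⟩ u w
      exact hinv g hg u w
    · rw [h3]
      exact Pool.Agent.R895.chern_int h2 (hj.lat hu) (hj.lat hw)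
  | zero => exact Submodule.zero_mem _
  | add x y _ _ h1 h2 => exact Submodule.add_mem _ h1 h2
  | smul t x _ h1 => exact Submodule.smul_mem _ t h1

/-- The automorphisms of the lattice which commute with `K`. -/
structure Cent (K : Subgroup ((Fin r → ℂ) ≃ₗ[ℂ] (Fin r → ℂ)))
    (u : (Fin r → ℂ) ≃ₗ[ℂ] (Fin r → ℂ)) : Prop where
  lat : ∀ v, Lat v → Lat (u v)
  lat' : ∀ v, Lat v → Lat (u.symm v)
  comm : ∀ a ∈ K, ∀ v, u (a v) = a (u v)

theorem Cent.symm {u : (Fin r → ℂ) ≃ₗ[ℂ] (Fin r → ℂ)} (h : Cent K u) : Cent K u.symm :=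
  ⟨h.lat', fun v hv => by rw [LinearEquiv.symm_symm]; exact h.lat v hv, fun a ha v => by
    apply u.injective
    rw [u.apply_symm_apply, h.comm a ha, u.apply_symm_apply]⟩

theorem Cent.trans {u t : (Fin r → ℂ) ≃ₗ[ℂ] (Fin r → ℂ)} (h : Cent K u) (h' : Cent K t) :
    Cent K (u.trans t) :=
  ⟨fun v hv => h'.lat _ (h.lat v hv), fun v hv => h.lat' _ (h'.lat' v hv), fun a ha v => by
    rw [LinearEquiv.trans_apply, LinearEquiv.trans_apply, h.comm a ha, h'.comm a ha]⟩

/-- The automorphism `u` is congruent to `1` modulo `N`. -/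
def Cong (N : ℕ) (u : (Fin r → ℂ) ≃ₗ[ℂ] (Fin r → ℂ)) : Prop :=
  ∀ v, Lat v → ∃ w, Lat w ∧ u v = v + (N : ℂ) • w

theorem Cong.symm {N : ℕ} {u : (Fin r → ℂ) ≃ₗ[ℂ] (Fin r → ℂ)} (h : Cong N u)
    (hu : ∀ v, Lat v → Lat (u.symm v)) : Cong N u.symm := by
  intro v hv
  obtain ⟨w, hw, h1⟩ := h (u.symm v) (hu v hv)
  rw [u.apply_symm_apply] at h1
  refine ⟨-w, fun i => (hw i).neg, ?_⟩
  rw [smul_neg, ← sub_eq_add_neg]
  exact eq_sub_of_add_eq h1.symm

theorem lat_sum {ι κ : Type*} (s : Finset κ) (f : κ → ι → ℂ) (hf : ∀ k ∈ s, Lat (f k)) :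
    Lat (∑ k ∈ s, f k) := fun i => by
  rw [Finset.sum_apply]
  exact IsEis.sum _ _ fun k hk => hf k hk i

theorem lat_smul {ι : Type*} {z : ℂ} (hz : IsEis z) {v : ι → ℂ} (hv : Lat v) : Lat (z • v) :=
  fun i => hz.mul (hv i)

/-- Representatives for the classes modulo `N`. -/
theorem exists_reps (K : Subgroup ((Fin r → ℂ) ≃ₗ[ℂ] (Fin r → ℂ))) {N : ℕ} (hN : 0 < N) :
    ∃ T : Finset ((Fin r → ℂ) ≃ₗ[ℂ] (Fin r → ℂ)), (∀ t ∈ T, Cent K t) ∧
      ∀ u, Cent K u → ∃ t ∈ T, Cong N (u.trans t.symm) := by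
  classical
  have hNZ : NeZero N := ⟨hN.ne'⟩
  -- the residues
  let X : Type := {u : (Fin r → ℂ) ≃ₗ[ℂ] (Fin r → ℂ) // Cent K u}
  have hint : ∀ (u : X) (k i : Fin r), ∃ p : ℤ × ℤ,
      (u.1 (Pi.single k 1)) i = p.1 + p.2 * om := by
    intro u k i
    obtain ⟨a, b, h⟩ := u.2.lat _ (lat_single k) i
    exact ⟨(a, b), h⟩
  choose p hp using hint
  let f : X → (Fin r → Fin r → ZMod N × ZMod N) := fun u k i => ((p u k i).1, (p u k i).2)
  have hfin : (Set.range f).Finite := Set.toFinite _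
  have hch : ∀ b : Set.range f, ∃ u : X, f u = b := fun b => b.2
  choose s hs using hch
  have hfin' : (Set.range fun b => (s b).1).Finite := by
    have : Finite (Set.range f) := hfin.to_subtype
    exact Set.finite_range _
  refine ⟨hfin'.toFinset, fun t ht => ?_, fun u hu => ?_⟩
  · rw [Set.Finite.mem_toFinset] at ht
    obtain ⟨b, rfl⟩ := ht
    exact (s b).2
  · set t := s ⟨f ⟨u, hu⟩, ⟨_, rfl⟩⟩ with ht
    have h1 : f t = f ⟨u, hu⟩ := hs ⟨f ⟨u, hu⟩, ⟨_, rfl⟩⟩
    refine ⟨t.1, ?_, ?_⟩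
    · rw [Set.Finite.mem_toFinset]
      exact ⟨_, rfl⟩
    · -- the difference on the basis vectors
      have h2 : ∀ k : Fin r, ∃ w, Lat w ∧ u (Pi.single k 1) = t.1 (Pi.single k 1) + (N : ℂ) • w := by
        intro k
        have h3 : ∀ i, ∃ z, IsEis z ∧ u (Pi.single k 1) i = t.1 (Pi.single k 1) i + N * z := by
          intro i
          have h4 := congrFun (congrFun h1 k) i
          have h5 : (((p t k i).1 : ZMod N)) = ((p ⟨u, hu⟩ k i).1 : ZMod N) :=
            congrArg Prod.fst h4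
          have h6 : (((p t k i).2 : ZMod N)) = ((p ⟨u, hu⟩ k i).2 : ZMod N) :=
            congrArg Prod.snd h4
          rw [ZMod.intCast_eq_intCast_iff_dvd_sub] at h5 h6
          obtain ⟨a, ha⟩ := h5
          obtain ⟨b, hb⟩ := h6
          refine ⟨a + b * om, ⟨a, b, rfl⟩, ?_⟩
          have h7 := hp ⟨u, hu⟩ k i
          have h8 := hp t k i
          change u (Pi.single k 1) i = _ at h7
          rw [h7, h8]
          have ha' : ((p ⟨u, hu⟩ k i).1 : ℂ) = (p t k i).1 + N * a := by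
            have : ((p ⟨u, hu⟩ k i).1 : ℤ) = (p t k i).1 + N * a := by linarith
            rw [this]
            push_cast
            ring
          have hb' : ((p ⟨u, hu⟩ k i).2 : ℂ) = (p t k i).2 + N * b := by
            have : ((p ⟨u, hu⟩ k i).2 : ℤ) = (p t k i).2 + N * b := by linarith
            rw [this]
            push_cast
            ring
          rw [ha', hb']
          ring
        choose w hw h3 using h3
        exact ⟨w, hw, funext fun i => by
          rw [h3 i]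
          rfl⟩
      choose w hw h2 using h2
      intro v hv
      refine ⟨∑ k, v k • t.1.symm (w k), lat_sum _ _ fun k _ =>
        lat_smul (hv k) (t.2.lat' _ (hw k)), ?_⟩
      have h4 : v = ∑ k, v k • (Pi.single k 1 : Fin r → ℂ) := by
        ext i
        simp [Finset.sum_apply, Pi.single_apply]
      change t.1.symm (u v) = _
      have h5 : t.1.symm (u v) = ∑ k, v k • t.1.symm (u (Pi.single k 1)) := by
        conv_lhs => rw [h4]
        rw [map_sum, map_sum]
        simp only [map_smul]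
      have h6 : ∀ k, t.1.symm (u (Pi.single k 1)) =
          Pi.single k 1 + (N : ℂ) • t.1.symm (w k) := by
        intro k
        rw [h2, map_add, t.1.symm_apply_apply, map_smul]
      rw [h5]
      simp only [h6, smul_add, Finset.sum_add_distrib]
      rw [← h4, Finset.smul_sum]
      congr 1
      exact Finset.sum_congr rfl fun k _ => smul_comm _ _ _

/-- **Reduction theory.** -/
theorem red_cls [Fintype K] (hG : PresLat G) (hK : PresLat K) (hR : Restr G j K)
    (hj : IsExt ρ j) {N : ℕ} (hN : 0 < N) :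
    ∃ F : Finset ((Fin r → ℂ) → (Fin r → ℂ) → ℂ),
      (∀ z ∈ F, (Dat z ∧ ∀ v, 0 ≤ (z v v).re) ∧ Inv K z) ∧
      ∀ x : NR (grp G hG) j,
        (∃ t : ℝ, 0 < t ∧ ∀ v, t * (std v v).re ≤ (frm (up x) v v).re) →
        ∃ u : (Fin r → ℂ) ≃ₗ[ℂ] (Fin r → ℂ), Cent K u ∧ Cong N u ∧
          ∃ c : ((Fin r → ℂ) → (Fin r → ℂ) → ℂ) → ℝ, (∀ z, 0 ≤ c z) ∧
            ∀ v w, frm (up x) v w = ∑ z ∈ F, c z * z (u v) (u w) := by
  classical
  obtain ⟨d, b, P⟩ := exists_pol hK
  obtain ⟨F, hF, hred⟩ := P.red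
  obtain ⟨C, hC, hCs⟩ := avg_le_std K
  obtain ⟨T, hT, hTr⟩ := exists_reps K hN
  let sc : ((Fin r → ℂ) ≃ₗ[ℂ] (Fin r → ℂ)) × ((Fin r → ℂ) → (Fin r → ℂ) → ℂ) →
    ((Fin r → ℂ) → (Fin r → ℂ) → ℂ) := fun p u w => p.2 (p.1 u) (p.1 w) / kap
  refine ⟨(T ×ˢ F).image sc, fun z hz => ?_, fun x hx => ?_⟩
  · obtain ⟨p, hp, rfl⟩ := Finset.mem_image.1 hz
    obtain ⟨hp1, hp2⟩ := Finset.mem_product.1 hp
    obtain ⟨h1, h2⟩ := hF p.2 hp2
    have ht := hT p.1 hp1
    refine ⟨⟨?_, fun v => ?_⟩, fun g hg u w => ?_⟩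
    · have h3 : Pol.IsInt (lat r) ∅ (fun u w => p.2 (p.1 u) (p.1 w)) :=
        ⟨⟨fun u v w => by rw [map_add, h1.herm.add_left],
          fun a v w => by rw [map_smul, h1.herm.smul_left], fun v w => h1.herm.symm _ _⟩,
          fun g hg => absurd hg (Set.notMem_empty g),
          fun u hu w hw => h1.int _ (ht.lat u hu) _ (ht.lat w hw)⟩
      exact dat_of_isInt h3
    · change 0 ≤ (p.2 (p.1 v) (p.1 v) / kap).re
      rw [re_kap_div]
      exact div_nonneg (h2 _) kap_pos.le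
    · change p.2 (p.1 (g u)) (p.1 (g w)) / kap = p.2 (p.1 u) (p.1 w) / kap
      have h3 : p.2 (p.1 (g u)) (p.1 (g w)) = p.2 (p.1 u) (p.1 w) := by
        rw [ht.comm g hg, ht.comm g hg]
        exact h1.inv _ ⟨g, hg, rfl⟩ _ _
      rw [h3]
  · obtain ⟨t, ht, hxt⟩ := hx
    obtain ⟨u, hu1, hu2, hu3, c, hc, hsum⟩ := hred (Pool.Agent.R895.form (up x))
      (form_span hR hj x) ⟨t / C, by positivity, fun v => by
        rw [form_frm, Complex.re_ofReal_mul, Complex.re_ofReal_mul]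
        have h1 := hxt v
        have h2 := kap_pos
        have h3 := hCs v
        have h4 : t / C * (kap * (avg K std v v).re) = kap * (t * ((avg K std v v).re / C)) := by
          field_simp
        rw [h4]
        refine mul_le_mul_of_nonneg_left (le_trans (mul_le_mul_of_nonneg_left ?_ ht.le) h1) h2.le
        rw [div_le_iff₀ hC, mul_comm]
        exact h3⟩
    have hu : Cent K u := ⟨fun v hv => hu1 v hv, fun v hv => hu2 v hv,
      fun g hg v => hu3 _ ⟨g, hg, rfl⟩ v⟩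
    obtain ⟨τ, hτ, hcong⟩ := hTr u hu
    -- the coefficients
    refine ⟨u.trans τ.symm, hu.trans (hT τ hτ).symm, hcong,
      fun z => ∑ y ∈ F.filter (fun y => sc (τ, y) = z), c y, fun z => Finset.sum_nonneg fun y _ =>
        hc y, fun v w => ?_⟩
    have h5 : frm (up x) v w = ∑ y ∈ F, (c y : ℂ) *
        sc (τ, y) ((u.trans τ.symm) v) ((u.trans τ.symm) w) := by
      unfold frm
      rw [hsum, Finset.sum_div]
      refine Finset.sum_congr rfl fun y _ => ?_
      change _ = (c y : ℂ) * (y (τ (τ.symm (u v))) (τ (τ.symm (u w))) / kap)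
      rw [τ.apply_symm_apply, τ.apply_symm_apply, mul_div_assoc]
    rw [h5]
    have h6 : ∀ z ∈ (T ×ˢ F).image sc,
        ((∑ y ∈ F.filter (fun y => sc (τ, y) = z), c y : ℝ) : ℂ) *
          z ((u.trans τ.symm) v) ((u.trans τ.symm) w) =
        ∑ y ∈ F.filter (fun y => sc (τ, y) = z), (c y : ℂ) *
          sc (τ, y) ((u.trans τ.symm) v) ((u.trans τ.symm) w) := by
      intro z _
      rw [Complex.ofReal_sum, Finset.sum_mul]
      refine Finset.sum_congr rfl fun y hy => ?_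
      rw [(Finset.mem_filter.1 hy).2]
    rw [Finset.sum_congr rfl h6]
    rw [Finset.sum_fiberwise_of_maps_to fun y hy => Finset.mem_image_of_mem sc
      (Finset.mk_mem_product hτ hy)]

end Pool.Agent.H899.ER
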