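import Pool.Graph.R_pool_sql_team_seeded_47a924f7.T6.H34.E6.Eqv
import Pool.Graph.R_pool_sql_team_seeded_47a924f7.T6.H41.K5.LemB
import Pool.Agent.H899.ER.Defs

/-!
# Relative classes: restriction to the translations
-/

set_option autoImplicit false

namespace Pool.Agent.H899.ER

open Filter Topology
open Pool.Agent.W594.SYZ2 (IsHermitian)
open Pool.Agent.R895 (Lat BlBundle act kum N1 N1s IsEis IsClass std frm kap Nf Dat IsExt
  frm_add frm_smul frm_sub frm_zero form_frm N1_ext' kap_ne)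
open Pool.Agent.Y167 (AffGrp cone cone_ind cone_add cone_smul mem_cone_self zero_mem_cone cone_mono)
open Pool.Agent.T6.H34.EK (QBundle PresLat grp res IsCls kum_le res_semiample res_section' chern_inv
  eisLat Inv)

/-- The key inequality. -/
theorem ok {n : ℕ} (h2 : 2 ≤ n) (h6 : n ≤ 6) : Pool.Agent.T6.H34.E6.Ok n := by
  rcases Nat.lt_or_ge n 6 with h | h
  · exact ⟨h2, fun hM hH _ hh hmin _ hJ hne hMJ =>
      Pool.Agent.T6.H41.K5.lemA (by omega) hM hH hh hmin hJ hne hMJ,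
      fun hM hH _ hh hmin hM1 => Pool.Agent.T6.H41.K5.lemA' h2 (by omega) hM hH hh hmin hM1⟩
  · obtain rfl : n = 6 := le_antisymm h6 h
    exact Pool.Agent.T6.H34.E6.ok_six

section top

variable {V E : Type*} [NormedAddCommGroup V] [NormedSpace ℂ V]
  [NormedAddCommGroup E] [NormedSpace ℂ E] {Γ : AffGrp V} {j : E →ₗ[ℂ] V}

instance : IsTopologicalAddGroup (NR Γ j) :=
  inferInstanceAs (IsTopologicalAddGroup (NRs Γ j))

instance : ContinuousSMul ℝ (NR Γ j) :=
  inferInstanceAs (ContinuousSMul ℝ (NRs Γ j))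

theorem span_add {A : Set (NR Γ j)} {x y : NR Γ j} (hx : x ∈ span A) (hy : y ∈ span A) :
    x + y ∈ span A := by
  classical
  obtain ⟨S, hS, hx⟩ := hx
  obtain ⟨T, hT, hy⟩ := hy
  refine ⟨S ∪ T, ?_, cone_add (cone_mono Finset.subset_union_left hx)
    (cone_mono Finset.subset_union_right hy)⟩
  rw [Finset.coe_union]
  exact Set.union_subset hS hT

theorem span_smul {A : Set (NR Γ j)} {x : NR Γ j} (hx : x ∈ span A) {t : ℝ} (ht : 0 ≤ t) :
    t • x ∈ span A := by
  obtain ⟨S, hS, hx⟩ := hx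
  exact ⟨S, hS, cone_smul hx ht⟩

theorem span_zero {A : Set (NR Γ j)} : (0 : NR Γ j) ∈ span A :=
  ⟨∅, by simp, zero_mem_cone _⟩

theorem span_self {A : Set (NR Γ j)} {x : NR Γ j} (hx : x ∈ A) : x ∈ span A :=
  ⟨{x}, by simpa using hx, mem_cone_self (Finset.mem_singleton_self x)⟩

theorem nef_add {x y : NR Γ j} (hx : x ∈ nefCone Γ j) (hy : y ∈ nefCone Γ j) :
    x + y ∈ nefCone Γ j :=
  map_mem_closure₂ continuous_add hx hy fun _ ha _ hb => span_add ha hb

theorem nef_smul {x : NR Γ j} (hx : x ∈ nefCone Γ j) {t : ℝ} (ht : 0 ≤ t) :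
    t • x ∈ nefCone Γ j :=
  map_mem_closure (continuous_const_smul t) hx fun _ ha => span_smul ha ht

theorem nef_zero : (0 : NR Γ j) ∈ nefCone Γ j := subset_closure span_zero

theorem cone_nef {S : Finset (NR Γ j)} (hS : ∀ a ∈ S, a ∈ nefCone Γ j) {x : NR Γ j}
    (hx : x ∈ cone S) : x ∈ nefCone Γ j :=
  cone_ind (p := fun x => x ∈ nefCone Γ j) nef_zero (fun _ _ h1 h2 => nef_add h1 h2)
    (fun _ _ ht h => nef_smul h ht) hS hx

theorem cone_span {S : Finset (NR Γ j)} {A : Set (NR Γ j)} (hS : ∀ a ∈ S, a ∈ span A) {x : NR Γ j}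
    (hx : x ∈ cone S) : x ∈ span A :=
  cone_ind (p := fun x => x ∈ span A) span_zero (fun _ _ h1 h2 => span_add h1 h2)
    (fun _ _ ht h => span_smul h ht) hS hx

/-- A limit along a ray. -/
theorem mem_closed {A : Set (NR Γ j)} (hA : IsClosed A) {x y : NR Γ j}
    (h : ∀ n : ℕ, x + (1 / ((n : ℝ) + 1)) • y ∈ A) : x ∈ A := by
  have h1 : Tendsto (fun n : ℕ => x + (1 / ((n : ℝ) + 1)) • y) atTop (𝓝 (x + (0 : ℝ) • y)) :=
    (tendsto_one_div_add_atTop_nhds_zero_nat.smul_const y).const_add x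
  rw [zero_smul, add_zero] at h1
  exact hA.mem_of_tendsto h1 (Eventually.of_forall h)

end top

section res

variable {n r : ℕ} {G : Subgroup ((Fin n → ℂ) ≃ₗ[ℂ] (Fin n → ℂ))} {hG : PresLat G}
  {j : (Fin r → ℂ) →ₗ[ℂ] (Fin n → ℂ)}

theorem res_isClass {L : QBundle (grp G hG)} {x : ((Fin r → ℂ) → (Fin r → ℂ) → ℂ) × ℝ}
    (hL : IsClass j L.toBlBundle x) : IsClass j (res L.toBlBundle) x := by
  obtain ⟨H, ⟨h1, F, hF, h2⟩, h3, h4⟩ := hL
  exact ⟨H, ⟨h1, F, hF, fun γ v => h2 ⟨γ.1, kum_le γ.2⟩ v⟩, h3, h4⟩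

theorem NRs_le : NRs (grp G hG) j ≤ N1s (kum (Fin n) 1) j := by
  refine Submodule.span_mono ?_
  rintro x ⟨L, hL⟩
  exact ⟨_, res_isClass hL⟩

/-- The pullback to the blow-up of `E^n`. -/
def up (x : NR (grp G hG) j) : N1 (kum (Fin n) 1) j := ⟨x.1, NRs_le x.2⟩

/-- The pullback as a linear map. -/
def upL : NR (grp G hG) j →ₗ[ℝ] N1 (kum (Fin n) 1) j where
  toFun := up
  map_add' _ _ := rfl
  map_smul' _ _ := rfl

theorem upL_apply (x : NR (grp G hG) j) : upL x = up x := rfl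

theorem up_inj : Function.Injective (up (G := G) (hG := hG) (j := j)) := fun x y h => by
  have h1 : (up x).1 = (up y).1 := by rw [h]
  exact Subtype.ext h1

theorem form_up (x : NR (grp G hG) j) : Pool.Agent.R895.form (up x) = form x := rfl

theorem coef_up (x : NR (grp G hG) j) : Pool.Agent.R895.coef (up x) = coef x := rfl

theorem up_add (x y : NR (grp G hG) j) : up (x + y) = up x + up y := rfl

theorem up_sub (x y : NR (grp G hG) j) : up (x - y) = up x - up y := rfl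

theorem up_smul (t : ℝ) (x : NR (grp G hG) j) : up (t • x) = t • up x := rfl

theorem up_zero : up (0 : NR (grp G hG) j) = 0 := rfl

theorem coef_add (x y : NR (grp G hG) j) : coef (x + y) = coef x + coef y := rfl

theorem coef_sub (x y : NR (grp G hG) j) : coef (x - y) = coef x - coef y := rfl

theorem coef_smul (t : ℝ) (x : NR (grp G hG) j) : coef (t • x) = t * coef x := rfl

theorem coef_zero : coef (0 : NR (grp G hG) j) = 0 := rfl

theorem NR_ext {x y : NR (grp G hG) j} (h1 : ∀ u w, frm (up x) u w = frm (up y) u w)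
    (h2 : coef x = coef y) : x = y :=
  up_inj (N1_ext' h1 h2)

theorem up_semiample {x : NR (grp G hG) j} (hx : x ∈ semiample (grp G hG) j) :
    up x ∈ Pool.Agent.R895.semiample (kum (Fin n) 1) j := by
  obtain ⟨L, hL, h⟩ := hx
  exact ⟨_, res_isClass hL, res_semiample h⟩

theorem up_integral {x : NR (grp G hG) j} (hx : x ∈ integral (grp G hG) j) :
    up x ∈ Pool.Agent.R895.integral (kum (Fin n) 1) j := by
  obtain ⟨L, hL⟩ := hx
  exact ⟨_, res_isClass hL⟩

theorem up_effective {x : NR (grp G hG) j} (hx : x ∈ effective (grp G hG) j) :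
    up x ∈ Pool.Agent.R895.effective (kum (Fin n) 1) j := by
  obtain ⟨L, s, hL, hs, h0⟩ := hx
  exact ⟨_, s, res_isClass hL, res_section' hs, h0⟩

theorem continuous_up : Continuous (up (G := G) (hG := hG) (j := j)) := by
  have h1 : Continuous fun x : NR (grp G hG) j => x.1 := continuous_subtype_val
  exact Continuous.subtype_mk h1 _

/-- The group generated by the integral classes. -/
noncomputable abbrev LR (hG : PresLat G) (j : (Fin r → ℂ) →ₗ[ℂ] (Fin n → ℂ)) :
    AddSubgroup (NR (grp G hG) j) := AddSubgroup.closure (integral (grp G hG) j)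

theorem up_LR {x : NR (grp G hG) j} (hx : x ∈ LR hG j) :
    up x ∈ AddSubgroup.closure (Pool.Agent.R895.integral (kum (Fin n) 1) j) := by
  have h1 : LR hG j ≤ (AddSubgroup.closure
      (Pool.Agent.R895.integral (kum (Fin n) 1) j)).comap
        (upL (G := G) (hG := hG) (j := j)).toAddMonoidHom := by
    rw [AddSubgroup.closure_le]
    intro x hx
    exact AddSubgroup.subset_closure (up_integral hx)
  exact h1 hx

/-- The cone which will turn out to be the nef cone. -/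
def NfR (hG : PresLat G) (j : (Fin r → ℂ) →ₗ[ℂ] (Fin n → ℂ)) : Set (NR (grp G hG) j) :=
  {x | up x ∈ Nf 1 j}

theorem mem_NfR (x : NR (grp G hG) j) : x ∈ NfR hG j ↔ up x ∈ Nf 1 j := Iff.rfl

theorem NfR_add {x y : NR (grp G hG) j} (hx : x ∈ NfR hG j) (hy : y ∈ NfR hG j) :
    x + y ∈ NfR hG j := by
  rw [mem_NfR] at hx hy ⊢
  rw [up_add]
  exact Pool.Agent.R895.Nf_add hx hy

theorem NfR_smul {t : ℝ} (ht : 0 ≤ t) {x : NR (grp G hG) j} (hx : x ∈ NfR hG j) :
    t • x ∈ NfR hG j := by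
  rw [mem_NfR] at hx ⊢
  rw [up_smul]
  exact Pool.Agent.R895.Nf_smul ht hx

theorem NfR_zero : (0 : NR (grp G hG) j) ∈ NfR hG j := by
  rw [mem_NfR, up_zero]
  exact Pool.Agent.R895.Nf_zero

theorem isClosed_NfR : IsClosed (NfR hG j) :=
  (Pool.Agent.R895.isClosed_Nf (m := 1) (j := j)).preimage continuous_up

theorem span_integral : Submodule.span ℝ (integral (grp G hG) j) = ⊤ := by
  rw [eq_top_iff]
  rintro ⟨x, hx⟩ -
  induction hx using Submodule.span_induction with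
  | mem x hx => exact Submodule.subset_span hx
  | zero => exact Submodule.zero_mem _
  | add x y _ _ h1 h2 => exact Submodule.add_mem _ h1 h2
  | smul t x _ h1 => exact Submodule.smul_mem _ t h1

theorem up_span {A : Set (NR (grp G hG) j)} {B : Set (N1 (kum (Fin n) 1) j)}
    (hAB : ∀ a ∈ A, up a ∈ B) {x : NR (grp G hG) j} (hx : x ∈ span A) :
    up x ∈ Pool.Agent.R895.span B := by
  obtain ⟨S, hS, hx⟩ := hx
  refine cone_ind (p := fun x => up x ∈ Pool.Agent.R895.span B) ?_ ?_ ?_ ?_ hx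
  · rw [up_zero]
    exact Pool.Agent.R895.span_zero
  · intro x y h1 h2
    rw [up_add]
    exact Pool.Agent.R895.span_add h1 h2
  · intro t x ht h1
    rw [up_smul]
    exact Pool.Agent.R895.span_smul h1 ht
  · intro a ha
    exact Pool.Agent.R895.span_self (hAB a (hS ha))

theorem up_eff {x : NR (grp G hG) j} (hx : x ∈ effCone (grp G hG) j) :
    up x ∈ Pool.Agent.R895.effCone (kum (Fin n) 1) j :=
  up_span (fun _ ha => up_effective ha) hx

section ext

variable {ρ : Fin r → Fin n}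

theorem dat_of_LR (hj : IsExt ρ j) {x : NR (grp G hG) j} (hx : x ∈ LR hG j) :
    Dat (frm (up x)) ∧ ∃ k : ℤ, coef x = k :=
  Pool.Agent.R895.eis_of_mem hj (up_LR hx)

theorem nefCone_le (hj : IsExt ρ j) (hρ : Function.Injective ρ) [Nonempty (Fin n)] :
    nefCone (grp G hG) j ⊆ NfR hG j := by
  refine closure_minimal ?_ isClosed_NfR
  rintro x ⟨S, hS, hx⟩
  exact cone_ind (p := fun x => x ∈ NfR hG j) NfR_zero (fun _ _ h1 h2 => NfR_add h1 h2)
    (fun _ _ ht h => NfR_smul ht h) (fun a ha => (mem_NfR a).2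
      (Pool.Agent.R895.semiample_Nf hj hρ (up_semiample (hS ha)))) hx

theorem coef_nat {a : NR (grp G hG) j} (ha : a ∈ NfR hG j) {n : ℤ} (hn : coef a = n) :
    ∃ b : ℕ, coef a = b := by
  have h1 : 0 ≤ coef a := ha.2.1
  rw [hn] at h1
  have h2 : 0 ≤ n := by exact_mod_cast h1
  obtain ⟨b, rfl⟩ := Int.eq_ofNat_of_zero_le h2
  exact ⟨b, by rw [hn]; simp⟩

theorem finite_NR : FiniteDimensional ℝ (NR (grp G hG) j) := by
  have : FiniteDimensional ℝ (N1 (kum (Fin n) 1) j) := Pool.Agent.R895.finite_N1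
  exact Module.Finite.of_injective (upL (G := G) (hG := hG)) up_inj

end ext

/-- The group `Gr` consists of the restrictions of the elements of `G`. -/
structure Restr (G : Subgroup ((Fin n → ℂ) ≃ₗ[ℂ] (Fin n → ℂ)))
    (j : (Fin r → ℂ) →ₗ[ℂ] (Fin n → ℂ)) (K : Subgroup ((Fin r → ℂ) ≃ₗ[ℂ] (Fin r → ℂ))) :
    Prop where
  down : ∀ g ∈ G, ∃ a ∈ K, ∀ u, g (j u) = j (a u)
  lift : ∀ a ∈ K, ∃ g ∈ G, ∀ u, g (j u) = j (a u)

variable {K : Subgroup ((Fin r → ℂ) ≃ₗ[ℂ] (Fin r → ℂ))}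

theorem form_inv (hR : Restr G j K) (x : NR (grp G hG) j) {a : (Fin r → ℂ) ≃ₗ[ℂ] (Fin r → ℂ)}
    (ha : a ∈ K) (u w : Fin r → ℂ) : form x (a u) (a w) = form x u w := by
  obtain ⟨g, hg, h1⟩ := hR.lift a ha
  obtain ⟨x, hx⟩ := x
  change x.1 (a u) (a w) = x.1 u w
  induction hx using Submodule.span_induction with
  | mem x hx =>
    obtain ⟨L, H, h2, h3, h4⟩ := hx
    have h5 : IsCls L ((H, x.2) : ((Fin n → ℂ) → (Fin n → ℂ) → ℂ) × ℝ) := ⟨h2, h4⟩
    rw [h3, h3, ← h1, ← h1]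
    exact chern_inv h5 ⟨g, hg⟩ _ _
  | zero => rfl
  | add x y _ _ h1 h2 =>
    simp only [Prod.fst_add, Pi.add_apply, h1, h2]
  | smul t x _ h1 =>
    simp only [Prod.smul_fst, Pi.smul_apply, h1]

theorem frm_inv (hR : Restr G j K) (x : NR (grp G hG) j) : Inv K (frm (up x)) :=
  fun a ha u w => by
    unfold frm
    rw [form_up, form_inv hR x ha]

end res

end Pool.Agent.H899.ER
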